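import Mathlib
import Pool.Agent.Q1.M6b.AB
import Pool.Agent.Q1.M6b.ABabs

set_option autoImplicit false
open Finset Filter Topology Metric

/-! # Chapters A and B for bounded functionals of an interior end

`f j v t` : difference of the two environments as a function of `t = exp (2 i u / 3)`; analytic near `0`,
BOUNDED on the discs of radius `Z R ^ (-2/3)`, with small Taylor coefficients in `z`, `t = z R ^ (-2/3)`.
Then it is `o (1)` at the rapidities `log (ρ R)`. Any filter, `R` real. -/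

namespace Pool.Agent.H32.W.Ab

open Pool.Agent.Q1.M6f Pool.Agent.Q1.M6b.AB

/-- **Quantitative Vitali at the centre of a disc.** -/
theorem quant {Z M ε : ℝ} (hZ : 0 < Z) (hε : 0 < ε) : ∃ N : ℕ, ∃ δ : ℝ, 0 < δ ∧ ∀ V : ℂ → ℂ,
    DifferentiableOn ℂ V (ball 0 (Z + 1)) → (∀ z ∈ ball (0 : ℂ) (Z + 1), ‖V z‖ ≤ M) →
    (∀ m ≤ N, ‖iteratedDeriv m V 0‖ ≤ δ) → ∀ z : ℂ, ‖z‖ ≤ Z → ‖V z‖ ≤ ε := by
  by_contra hcon
  push Not at hcon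
  have h1 : ∀ n : ℕ, ∃ V : ℂ → ℂ, DifferentiableOn ℂ V (ball 0 (Z + 1)) ∧
      (∀ z ∈ ball (0 : ℂ) (Z + 1), ‖V z‖ ≤ M) ∧
      (∀ m ≤ n, ‖iteratedDeriv m V 0‖ ≤ 1 / ((n : ℝ) + 1)) ∧ ∃ z : ℂ, ‖z‖ ≤ Z ∧ ε < ‖V z‖ :=
    fun n => by
      obtain ⟨V, a, b, c, d⟩ := hcon n (1 / ((n : ℝ) + 1)) (by positivity)
      exact ⟨V, a, b, c, d⟩
  choose V hd hb ht hz using h1
  have key := vitali_zero (Δ := ball (0 : ℂ) (Z + 1)) isOpen_ball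
    (convex_ball (0 : ℂ) (Z + 1)).isPreconnected (z0 := 0) (mem_ball_self (by positivity))
    (S := fun _ => (Set.univ : Set Unit)) (V := fun n _ => V n)
    (Eventually.of_forall fun n _ _ => hd n)
    (fun K hK _ => ⟨M, Eventually.of_forall fun n _ _ z hz => hb n z (hK hz)⟩)
    (fun m ε' hε' => by
      have h2 : Tendsto (fun n : ℕ => 1 / ((n : ℝ) + 1)) atTop (𝓝 0) :=
        tendsto_one_div_add_atTop_nhds_zero_nat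
      filter_upwards [h2.eventually (gt_mem_nhds hε'), eventually_ge_atTop m] with n h3 h4 _ _
      exact (ht n m h4).trans h3.le)
    (K := closedBall 0 Z) (closedBall_subset_ball (by linarith)) (isCompact_closedBall 0 Z) hε
  obtain ⟨n, hn⟩ := key.exists
  obtain ⟨z, hz1, hz2⟩ := hz n
  have := hn () (Set.mem_univ _) z (by simpa using hz1)
  linarith

/-- the size of `t = exp (2 i u / 3)` at the rapidities `log (ρ R)`, real `R` -/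
theorem rap_smallR {ρ : ℝ} (hρ : 0 < ρ) : ∀ᶠ R : ℝ in atTop, ∀ u : ℂ,
    |u.im - Real.log ⌊ρ * R⌋₊| ≤ 1 → 1 ≤ u.im ∧ ∃ z : ℂ, ‖z‖ ≤ (2 / ρ) ^ (2 / 3 : ℝ) * Real.exp 1 ∧
      z * ((R ^ (-(2 / 3) : ℝ) : ℝ) : ℂ) = Complex.exp (2 * Complex.I * u / 3) := by
  set Z : ℝ := (2 / ρ) ^ (2 / 3 : ℝ) * Real.exp 1 with hZ
  have hn : ∀ᶠ R : ℝ in atTop, 8 ≤ ⌊ρ * R⌋₊ := by
    have h1 := (tendsto_id (α := ℝ) (x := atTop)).const_mul_atTop hρ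
    have h2 := h1.eventually (eventually_ge_atTop 8)
    filter_upwards [h2] with R hR
    exact Nat.le_floor (by exact_mod_cast hR)
  filter_upwards [hn, eventually_gt_atTop 0] with R h2 hRr u ht'
  set n : ℕ := ⌊ρ * R⌋₊ with hnn
  obtain ⟨t', him⟩ : ∃ t' : ℝ, u.im = t' + Real.log n := ⟨u.im - Real.log n, by ring⟩
  rw [him, add_sub_cancel_right] at ht'
  have hn8 : (8 : ℝ) ≤ n := by exact_mod_cast h2
  have hlog : 2 ≤ Real.log n := by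
    rw [Real.le_log_iff_exp_le (by linarith)]
    have h4 : Real.exp 2 = Real.exp 1 * Real.exp 1 := by rw [← Real.exp_add]; norm_num
    have h5 := Real.exp_one_lt_d9
    rw [h4]
    nlinarith [Real.exp_pos 1]
  have hab := abs_le.1 ht'
  have hu1 : 1 ≤ u.im := by rw [him]; linarith
  refine ⟨hu1, ?_⟩
  set e : ℝ := R ^ (-(2 / 3) : ℝ) with he
  have hep : 0 < e := Real.rpow_pos_of_pos hRr _
  have hec : (e : ℂ) ≠ 0 := by exact_mod_cast hep.ne'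
  set z : ℂ := Complex.exp (2 * Complex.I * u / 3) / (e : ℂ) with hz
  have hze : z * (e : ℂ) = Complex.exp (2 * Complex.I * u / 3) := div_mul_cancel₀ _ hec
  have hzn : ‖z‖ ≤ Z := by
    rw [hz, norm_div, Complex.norm_real, Real.norm_eq_abs, abs_of_pos hep, Complex.norm_exp]
    have e1 : (2 * Complex.I * u / 3).re = -(2 / 3) * u.im := by
      simp [Complex.div_ofNat_re]
      ring
    rw [e1, him]
    have e2 : Real.exp (-(2 / 3) * (t' + Real.log n)) =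
        Real.exp (-(2 / 3) * t') * (n : ℝ) ^ (-(2 / 3) : ℝ) := by
      rw [mul_add, Real.exp_add, Real.rpow_def_of_pos (by linarith), mul_comm (Real.log n)]
    rw [e2, div_le_iff₀ hep]
    have e3 : Real.exp (-(2 / 3) * t') ≤ Real.exp 1 := Real.exp_le_exp.2 (by linarith)
    have hnR : ρ * R / 2 ≤ n := by
      have h4 := Nat.lt_floor_add_one (ρ * R)
      rw [← hnn] at h4
      linarith
    have hp0 : 0 < ρ * R / 2 := by positivity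
    have e4 : (n : ℝ) ^ (-(2 / 3) : ℝ) ≤ (ρ * R / 2) ^ (-(2 / 3) : ℝ) :=
      Real.rpow_le_rpow_of_nonpos hp0 hnR (by norm_num)
    have e5 : (ρ * R / 2) ^ (-(2 / 3) : ℝ) = (2 / ρ) ^ (2 / 3 : ℝ) * e := by
      rw [he, Real.rpow_neg hp0.le, Real.rpow_neg hRr.le, ← Real.inv_rpow hp0.le,
        ← Real.inv_rpow hRr.le, ← Real.mul_rpow (by positivity) (by positivity)]
      congr 1
      field_simp
    calc Real.exp (-(2 / 3) * t') * (n : ℝ) ^ (-(2 / 3) : ℝ)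
        ≤ Real.exp 1 * ((2 / ρ) ^ (2 / 3 : ℝ) * e) :=
          mul_le_mul e3 (e4.trans e5.le) (by positivity) (by positivity)
      _ = Z * e := by rw [hZ]; ring
  exact ⟨z, hzn, hze⟩

variable {κ ι : Type*} {𝓕 : Filter κ} {R : κ → ℝ} {S : κ → Set ι} {f : κ → ι → ℂ → ℂ}

/-- **The analytic argument, bounded version.** -/
theorem abr (hR : Tendsto R 𝓕 atTop)
    (hd : ∀ᶠ j in 𝓕, ∀ v ∈ S j, DifferentiableOn ℂ (f j v) (ball 0 (1 / 2)))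
    (hb : ∀ Z : ℝ, 0 < Z → ∃ M : ℝ, ∀ᶠ j in 𝓕, ∀ v ∈ S j, ∀ z : ℂ, z ≠ 0 → ‖z‖ ≤ Z →
      ‖f j v (z * ((R j ^ (-(2 / 3) : ℝ) : ℝ) : ℂ))‖ ≤ M)
    (ht : ∀ m : ℕ, ∀ ε : ℝ, 0 < ε → ∀ᶠ j in 𝓕, ∀ v ∈ S j,
      ‖iteratedDeriv m (fun z : ℂ => f j v (z * ((R j ^ (-(2 / 3) : ℝ) : ℝ) : ℂ))) 0‖ ≤ ε)
    {ρ : ℝ} (hρ : 0 < ρ) {ε : ℝ} (hε : 0 < ε) :
    ∀ᶠ j in 𝓕, ∀ v ∈ S j, ∀ u : ℂ, |u.im - Real.log ⌊ρ * R j⌋₊| ≤ 1 → 1 ≤ u.im ∧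
      ‖f j v (Complex.exp (2 * Complex.I * u / 3))‖ ≤ ε := by
  set Z : ℝ := (2 / ρ) ^ (2 / 3 : ℝ) * Real.exp 1 with hZ
  have hZ0 : 0 < Z := by positivity
  obtain ⟨M, hM⟩ := hb (Z + 1) (by positivity)
  obtain ⟨N, δ, hδ, hq⟩ := quant (Z := Z) (M := M) (ε := ε) hZ0 hε
  have he0 : Tendsto (fun j => R j ^ (-(2 / 3) : ℝ)) 𝓕 (𝓝 0) :=
    (tendsto_rpow_neg_atTop (show (0 : ℝ) < 2 / 3 by norm_num)).comp hR
  have hsm : ∀ᶠ j in 𝓕, R j ^ (-(2 / 3) : ℝ) * (Z + 1) < 1 / 4 := by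
    have h1 := he0.mul_const (Z + 1)
    rw [zero_mul] at h1
    exact h1.eventually (gt_mem_nhds (by norm_num))
  have htN : ∀ᶠ j in 𝓕, ∀ m ∈ range (N + 1), ∀ v ∈ S j,
      ‖iteratedDeriv m (fun z : ℂ => f j v (z * ((R j ^ (-(2 / 3) : ℝ) : ℝ) : ℂ))) 0‖ ≤ δ := by
    rw [Filter.eventually_all_finset]
    exact fun m _ => ht m δ hδ
  filter_upwards [hM, hsm, htN, hd, hR.eventually (rap_smallR hρ), hR.eventually_gt_atTop 0] with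
    j h1 h2 h3 h4 h5 h6 v hv u hu
  obtain ⟨hu1, z, hz1, hz2⟩ := h5 u hu
  refine ⟨hu1, ?_⟩
  have hep : 0 < R j ^ (-(2 / 3) : ℝ) := Real.rpow_pos_of_pos h6 _
  have hdV : DifferentiableOn ℂ (fun z : ℂ => f j v (z * ((R j ^ (-(2 / 3) : ℝ) : ℝ) : ℂ)))
      (ball 0 (Z + 1)) := by
    refine (h4 v hv).comp ((differentiable_id.mul_const _).differentiableOn) fun z hz => ?_
    rw [mem_ball_zero_iff] at hz ⊢
    rw [norm_mul, Complex.norm_real, Real.norm_eq_abs, abs_of_pos hep]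
    nlinarith
  have hbV : ∀ z ∈ ball (0 : ℂ) (Z + 1), ‖f j v (z * ((R j ^ (-(2 / 3) : ℝ) : ℝ) : ℂ))‖ ≤ M := by
    intro z hz
    by_cases hz0 : z = 0
    · have hc : ContinuousAt (fun z : ℂ => f j v (z * ((R j ^ (-(2 / 3) : ℝ) : ℝ) : ℂ))) z :=
        (hdV.differentiableAt (isOpen_ball.mem_nhds hz)).continuousAt
      have ht0 : Tendsto (fun z : ℂ => ‖f j v (z * ((R j ^ (-(2 / 3) : ℝ) : ℝ) : ℂ))‖) (𝓝[≠] z)
          (𝓝 ‖f j v (z * ((R j ^ (-(2 / 3) : ℝ) : ℝ) : ℂ))‖) :=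
        (hc.norm.tendsto).mono_left nhdsWithin_le_nhds
      refine le_of_tendsto ht0 ?_
      have hmem : ball (0 : ℂ) (Z + 1) ∈ 𝓝[≠] z := nhdsWithin_le_nhds (isOpen_ball.mem_nhds hz)
      filter_upwards [hmem, self_mem_nhdsWithin] with y hy hy0
      have hy0' : y ≠ 0 := by rw [hz0] at hy0; exact hy0
      rw [mem_ball_zero_iff] at hy
      exact h1 v hv y hy0' hy.le
    · rw [mem_ball_zero_iff] at hz
      exact h1 v hv z hz0 hz.le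
  have key := hq _ hdV hbV (fun m hm => h3 m (mem_range.2 (by omega)) v hv) z hz1
  simp only [hz2] at key
  exact key

/-- the bound, in terms of the rapidity -/
theorem hb_of_rap (hR : Tendsto R 𝓕 atTop)
    (hu : ∀ Z : ℝ, 0 < Z → ∃ M : ℝ, ∀ᶠ j in 𝓕, ∀ v ∈ S j, ∀ u : ℂ, 1 ≤ u.im →
      R j ≤ Z * Real.exp u.im → ‖f j v (Complex.exp (2 * Complex.I * u / 3))‖ ≤ M) :
    ∀ Z : ℝ, 0 < Z → ∃ M : ℝ, ∀ᶠ j in 𝓕, ∀ v ∈ S j, ∀ z : ℂ, z ≠ 0 → ‖z‖ ≤ Z →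
      ‖f j v (z * ((R j ^ (-(2 / 3) : ℝ) : ℝ) : ℂ))‖ ≤ M := by
  intro Z hZ
  obtain ⟨M, hM⟩ := hu (Z ^ (3 / 2 : ℝ)) (by positivity)
  refine ⟨M, ?_⟩
  have he0 : Tendsto (fun j => R j ^ (-(2 / 3) : ℝ)) 𝓕 (𝓝 0) :=
    (tendsto_rpow_neg_atTop (show (0 : ℝ) < 2 / 3 by norm_num)).comp hR
  have hsm : ∀ᶠ j in 𝓕, R j ^ (-(2 / 3) : ℝ) * Z < 1 / 4 := by
    have h1 := he0.mul_const Z
    rw [zero_mul] at h1
    exact h1.eventually (gt_mem_nhds (by norm_num))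
  filter_upwards [hM, hsm, hR.eventually_gt_atTop 0] with j h1 h2 h3 v hv z hz0 hz
  have hep : 0 < R j ^ (-(2 / 3) : ℝ) := Real.rpow_pos_of_pos h3 _
  have hzn : 0 < ‖z‖ := norm_pos_iff.2 hz0
  have hnt : ‖z * ((R j ^ (-(2 / 3) : ℝ) : ℝ) : ℂ)‖ = ‖z‖ * R j ^ (-(2 / 3) : ℝ) := by
    rw [norm_mul, Complex.norm_real, Real.norm_eq_abs, abs_of_pos hep]
  have ht0 : z * ((R j ^ (-(2 / 3) : ℝ) : ℝ) : ℂ) ≠ 0 := by
    rw [← norm_pos_iff, hnt]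
    positivity
  obtain ⟨u, hu1, hu2⟩ := exists_rap ht0 (by rw [hnt]; nlinarith)
  rw [hu2]
  refine h1 v hv u hu1 ?_
  have e1 : ‖z * ((R j ^ (-(2 / 3) : ℝ) : ℝ) : ℂ)‖ = Real.exp (-(2 / 3) * u.im) := by
    rw [hu2, Complex.norm_exp]
    congr 1
    simp [Complex.div_ofNat_re]
    ring
  rw [hnt] at e1
  -- `R = ‖z‖ ^ (3/2) exp (u.im)`
  have e2 : R j ^ (-(2 / 3) : ℝ) = Real.exp (-(2 / 3) * u.im) / ‖z‖ := by
    rw [← e1]; field_simp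
  have e3 : R j = ‖z‖ ^ (3 / 2 : ℝ) * Real.exp u.im := by
    have h4 : R j = (R j ^ (-(2 / 3) : ℝ)) ^ (-(3 / 2) : ℝ) := by
      rw [← Real.rpow_mul h3.le]
      norm_num
    rw [h4, e2, Real.div_rpow (Real.exp_pos _).le hzn.le, ← Real.exp_mul, Real.rpow_neg hzn.le,
      div_inv_eq_mul, mul_comm]
    congr 2
    ring
  rw [e3]
  refine mul_le_mul_of_nonneg_right ?_ (Real.exp_pos _).le
  exact Real.rpow_le_rpow hzn.le hz (by norm_num)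

/-- **Chapters A and B, bounded version, everything in terms of the rapidity.** -/
theorem abr_rap (hR : Tendsto R 𝓕 atTop)
    (hd : ∀ᶠ j in 𝓕, ∀ v ∈ S j, DifferentiableOn ℂ (f j v) (ball 0 (1 / 2)))
    (hu : ∀ Z : ℝ, 0 < Z → ∃ M : ℝ, ∀ᶠ j in 𝓕, ∀ v ∈ S j, ∀ u : ℂ, 1 ≤ u.im →
      R j ≤ Z * Real.exp u.im → ‖f j v (Complex.exp (2 * Complex.I * u / 3))‖ ≤ M)
    (ht : ∀ m : ℕ, ∀ ε : ℝ, 0 < ε → ∀ᶠ j in 𝓕, ∀ v ∈ S j,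
      ‖iteratedDeriv m (fun z : ℂ => f j v (z * ((R j ^ (-(2 / 3) : ℝ) : ℝ) : ℂ))) 0‖ ≤ ε)
    {ρ : ℝ} (hρ : 0 < ρ) {ε : ℝ} (hε : 0 < ε) :
    ∀ᶠ j in 𝓕, ∀ v ∈ S j, ∀ u : ℂ, |u.im - Real.log ⌊ρ * R j⌋₊| ≤ 1 → 1 ≤ u.im ∧
      ‖f j v (Complex.exp (2 * Complex.I * u / 3))‖ ≤ ε :=
  abr hR hd (hb_of_rap hR hu) ht hρ hε

/-- 20's form: `R : ℕ` -/
theorem abr_nat {S : ℕ → Set ι} {F : ℕ → ι → ℂ → ℂ}
    (hd : ∀ R v, v ∈ S R → DifferentiableOn ℂ (F R v) (ball 0 (1 / 2)))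
    (hb : ∀ Z : ℝ, 0 < Z → ∃ M : ℝ, ∀ᶠ R : ℕ in atTop, ∀ v ∈ S R, ∀ z : ℂ, ‖z‖ ≤ Z →
      ‖F R v (z * (((R : ℝ) ^ (-(2 / 3) : ℝ) : ℝ) : ℂ))‖ ≤ M)
    (ht : ∀ m : ℕ, ∀ ε : ℝ, 0 < ε → ∀ᶠ R : ℕ in atTop, ∀ v ∈ S R,
      ‖iteratedDeriv m (fun z : ℂ => F R v (z * (((R : ℝ) ^ (-(2 / 3) : ℝ) : ℝ) : ℂ))) 0‖ ≤ ε)
    {ρ : ℝ} (hρ : 0 < ρ) {ε : ℝ} (hε : 0 < ε) :
    ∀ᶠ R : ℕ in atTop, ∀ v ∈ S R, ∀ u : ℂ, |u.im - Real.log ⌊ρ * R⌋₊| ≤ 1 → 1 ≤ u.im ∧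
      ‖F R v (Complex.exp (2 * Complex.I * u / 3))‖ ≤ ε :=
  abr (R := fun R : ℕ => (R : ℝ)) tendsto_natCast_atTop_atTop
    (Eventually.of_forall fun R v hv => hd R v hv)
    (fun Z hZ => by
      obtain ⟨M, hM⟩ := hb Z hZ
      exact ⟨M, by filter_upwards [hM] with R h v hv z _ hz; exact h v hv z hz⟩) ht hρ hε

end Pool.Agent.H32.W.Ab
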