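import Mathlib
import Pool.Agent.H32.W.Ab
import Pool.Agent.H44.W.CloseOff

set_option autoImplicit false
open Filter Topology Metric

/-! # The field `ab` of `Trk4`, uniformly in the far patterns -/

namespace Pool.Agent.H32.W.Ab

open Pool.Agent.Q1.M4 (lat)
open Pool.Agent.H44.W

/-- the rapidity of the lines -/
noncomputable def uN (n : ℕ) : ℂ := (Real.pi : ℂ) / 2 + Complex.I * (Real.log n : ℝ)

lemma uN_im (n : ℕ) : (uN n).im = Real.log n := by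
  unfold uN
  have h3 : ((Real.pi : ℂ) / 2).im = 0 := by
    rw [Complex.div_ofNat_im]; simp
  rw [Complex.add_im, h3, Complex.mul_im, Complex.I_re, Complex.I_im, Complex.ofReal_re,
    Complex.ofReal_im]
  ring

variable {Θ : Type*} {R : ℕ → ℝ} {F : Filter ℕ} {Ω : Set ℂ} {T : ℕ → Set Θ}
  {f : ℕ → Θ → ℤ × ℤ → ℂ → ℂ} {Z : ℝ → ℕ → Set (ℤ × ℤ)}

/-- **Inputs of chapters A and B for the interior end.** `f j θ v t` : difference of the two natural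
environments with the moved line, window number `j`, far pattern `θ ∈ T j`, interior end at `v`,
`t = exp (2 i u / 3)`; `Z η j` : bad positions. Everything is uniform in `θ ∈ T j`. -/
structure AbIn (R : ℕ → ℝ) (F : Filter ℕ) (Ω : Set ℂ) (T : ℕ → Set Θ)
    (f : ℕ → Θ → ℤ × ℤ → ℂ → ℂ) (Z : ℝ → ℕ → Set (ℤ × ℤ)) : Prop where
  thin : Thin R F Ω Z
  diff : ∀ K ⊆ Ω, IsCompact K → ∀ᶠ j in F, ∀ θ ∈ T j, ∀ v : ℤ × ℤ, lat v / (R j : ℂ) ∈ K →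
    DifferentiableOn ℂ (f j θ v) (ball 0 (1 / 2))
  bd : ∀ K ⊆ Ω, IsCompact K → ∀ B : ℝ, 0 < B → ∃ M : ℝ, ∀ᶠ j in F, ∀ θ ∈ T j, ∀ v : ℤ × ℤ,
    lat v / (R j : ℂ) ∈ K → ∀ u : ℂ, 1 ≤ u.im → R j ≤ B * Real.exp u.im →
    ‖f j θ v (Complex.exp (2 * Complex.I * u / 3))‖ ≤ M
  tay : ∀ K ⊆ Ω, IsCompact K → ∀ η > 0, ∀ m : ℕ, ∀ ε : ℝ, 0 < ε → ∀ᶠ j in F, ∀ θ ∈ T j,
    ∀ v : ℤ × ℤ, lat v / (R j : ℂ) ∈ K → v ∉ Z η j →
    ‖iteratedDeriv m (fun z : ℂ => f j θ v (z * ((R j ^ (-(2 / 3) : ℝ) : ℝ) : ℂ))) 0‖ ≤ ε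

/-- pointwise, off the bad positions -/
theorem AbIn.off (h : AbIn R F Ω T f Z) (hR : Tendsto R F atTop) {K : Set ℂ} (hK : K ⊆ Ω)
    (hKc : IsCompact K) {η : ℝ} (hη : 0 < η) {ρ : ℝ} (hρ : 0 < ρ) {ε : ℝ} (hε : 0 < ε) :
    ∀ᶠ j in F, ∀ θ ∈ T j, ∀ v : ℤ × ℤ, lat v / (R j : ℂ) ∈ K → v ∉ Z η j → ∀ u : ℂ,
      |u.im - Real.log ⌊ρ * R j⌋₊| ≤ 1 → 1 ≤ u.im ∧
      ‖f j θ v (Complex.exp (2 * Complex.I * u / 3))‖ ≤ ε := by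
  have key := abr_rap (κ := ℕ) (ι := Θ × (ℤ × ℤ)) (𝓕 := F) (R := R) (f := fun j x => f j x.1 x.2)
    (S := fun j => {x | x.1 ∈ T j ∧ lat x.2 / (R j : ℂ) ∈ K ∧ x.2 ∉ Z η j}) hR
    (by filter_upwards [h.diff K hK hKc] with j hj x hx; exact hj x.1 hx.1 x.2 hx.2.1)
    (fun B hB => by
      obtain ⟨M, hM⟩ := h.bd K hK hKc B hB
      exact ⟨M, by filter_upwards [hM] with j hj x hx; exact hj x.1 hx.1 x.2 hx.2.1⟩)
    (fun m ε' hε' => by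
      filter_upwards [h.tay K hK hKc η hη m ε' hε'] with j hj x hx
      exact hj x.1 hx.1 x.2 hx.2.1 hx.2.2) hρ hε
  filter_upwards [key] with j hj θ hθ v hv hvZ
  exact hj (θ, v) ⟨hθ, hv, hvZ⟩

/-- everywhere: bounded at the rapidities `log (ρ R)` -/
theorem AbIn.crude (h : AbIn R F Ω T f Z) (hR : Tendsto R F atTop) {K : Set ℂ} (hK : K ⊆ Ω)
    (hKc : IsCompact K) {ρ : ℝ} (hρ : 0 < ρ) :
    ∃ M : ℝ, ∀ᶠ j in F, ∀ θ ∈ T j, ∀ v : ℤ × ℤ, lat v / (R j : ℂ) ∈ K → ∀ u : ℂ,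
      |u.im - Real.log ⌊ρ * R j⌋₊| ≤ 1 → ‖f j θ v (Complex.exp (2 * Complex.I * u / 3))‖ ≤ M := by
  obtain ⟨M, hM⟩ := h.bd K hK hKc (2 / ρ * Real.exp 1) (by positivity)
  refine ⟨M, ?_⟩
  filter_upwards [hM, hR.eventually (rap_smallR hρ), hR.eventually_gt_atTop 0,
    hR.eventually_ge_atTop (2 / ρ)] with j h1 h2 h3 h4 θ hθ v hv u hu
  obtain ⟨hu1, -⟩ := h2 u hu
  refine h1 θ hθ v hv u hu1 ?_
  set n : ℕ := ⌊ρ * R j⌋₊ with hn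
  have hnR : ρ * R j / 2 ≤ n := by
    have h5 := Nat.lt_floor_add_one (ρ * R j)
    rw [← hn] at h5
    have h6 : 2 ≤ ρ * R j := by
      rw [div_le_iff₀ hρ] at h4
      linarith
    linarith
  have hn0 : (0 : ℝ) < n := lt_of_lt_of_le (by positivity) hnR
  have h7 : Real.log n - 1 ≤ u.im := by have := (abs_le.1 hu).1; linarith
  have h8 : (n : ℝ) * Real.exp (-1) ≤ Real.exp u.im := by
    calc (n : ℝ) * Real.exp (-1) = Real.exp (Real.log n - 1) := by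
          rw [sub_eq_add_neg, Real.exp_add, Real.exp_log hn0]
      _ ≤ _ := Real.exp_le_exp.2 h7
  have h9 : Real.exp 1 * Real.exp (-1) = 1 := by rw [← Real.exp_add]; simp
  calc R j = 2 / ρ * (ρ * R j / 2) := by field_simp
    _ ≤ 2 / ρ * n := by gcongr
    _ = 2 / ρ * (n * (Real.exp 1 * Real.exp (-1))) := by rw [h9, mul_one]
    _ = 2 / ρ * Real.exp 1 * (n * Real.exp (-1)) := by ring
    _ ≤ 2 / ρ * Real.exp 1 * Real.exp u.im := by gcongr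

/-- eventually for all patterns, from the sequences of patterns -/
lemma evt_all {P : ℕ → Θ → Prop}
    (h : ∀ θ : ℕ → Θ, (∀ j, (T j).Nonempty → θ j ∈ T j) → ∀ᶠ j in F, θ j ∈ T j → P j (θ j)) :
    ∀ᶠ j in F, ∀ θ ∈ T j, P j θ := by
  classical
  by_cases hne : Nonempty Θ
  swap
  · exact Eventually.of_forall fun j θ _ => absurd ⟨θ⟩ hne
  obtain ⟨θ0⟩ := hne
  have h1 : ∀ j, ∃ θ : Θ, ((T j).Nonempty → θ ∈ T j) ∧ ((∃ θ ∈ T j, ¬ P j θ) → ¬ P j θ) := by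
    intro j
    by_cases hb : ∃ θ ∈ T j, ¬ P j θ
    · obtain ⟨θ, h2, h3⟩ := hb
      exact ⟨θ, fun _ => h2, fun _ => h3⟩
    · by_cases hn : (T j).Nonempty
      · obtain ⟨θ, h2⟩ := hn
        exact ⟨θ, fun _ => h2, fun h4 => absurd h4 hb⟩
      · exact ⟨θ0, fun h4 => absurd h4 hn, fun h4 => absurd h4 hb⟩
  choose θ hθ1 hθ2 using h1
  filter_upwards [h θ hθ1] with j hj θ' hθ'
  by_contra hP
  exact hθ2 j ⟨θ', hθ', hP⟩ (hj (hθ1 j ⟨θ', hθ'⟩))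

/-- **The field `ab` of `Trk4`**, uniformly in the far patterns. -/
theorem AbIn.ab_unif {V : ℕ → Θ → ℕ → ℤ × ℤ → ℂ} (h : AbIn R F Ω T f Z) (hR : Tendsto R F atTop)
    (hV : ∀ K ⊆ Ω, IsCompact K → ∀ ρ : ℝ, 0 < ρ → ∀ᶠ j in F, ∀ θ ∈ T j, ∀ v : ℤ × ℤ,
      lat v / (R j : ℂ) ∈ K →
      ‖V j θ ⌊ρ * R j⌋₊ v‖ ≤ ‖f j θ v (Complex.exp (2 * Complex.I * uN ⌊ρ * R j⌋₊ / 3))‖)
    {K : Set ℂ} (hK : K ⊆ Ω) (hKc : IsCompact K) {ρ : ℝ} (hρ : 0 < ρ) {ε : ℝ} (hε : 0 < ε) :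
    ∀ᶠ j in F, ∀ θ ∈ T j, ∀ S : Finset (ℤ × ℤ), (∀ v ∈ S, lat v / (R j : ℂ) ∈ K) →
      ∑ v ∈ S, ‖V j θ ⌊ρ * R j⌋₊ v‖ ≤ ε * R j ^ 2 := by
  classical
  refine evt_all fun θ hθ => ?_
  have key := sum_of_off (A := fun j v => if θ j ∈ T j then V j (θ j) ⌊ρ * R j⌋₊ v else 0) hR h.thin
    (s := fun _ => 1) (Eventually.of_forall fun _ => zero_le_one)
    (fun K hK hKc => by
      obtain ⟨M, hM⟩ := h.crude hR hK hKc hρ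
      refine ⟨max M 0, ?_⟩
      filter_upwards [hM, hV K hK hKc ρ hρ] with j h1 h2 v hv
      rw [mul_one]
      by_cases hj : θ j ∈ T j
      · rw [if_pos hj]
        refine (h2 _ hj v hv).trans ((h1 _ hj v hv _ ?_).trans (le_max_left _ _))
        rw [uN_im, sub_self, abs_zero]
        exact zero_le_one
      · rw [if_neg hj, norm_zero]
        exact le_max_right _ _)
    (fun K hK hKc η hη ε hε => by
      filter_upwards [h.off hR hK hKc hη hρ hε, hV K hK hKc ρ hρ] with j h1 h2 v hv hv'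
      rw [mul_one]
      by_cases hj : θ j ∈ T j
      · rw [if_pos hj]
        refine (h2 _ hj v hv).trans (h1 _ hj v hv hv' _ ?_).2
        rw [uN_im, sub_self, abs_zero]
        exact zero_le_one
      · rw [if_neg hj, norm_zero]
        exact hε.le) K hK hKc ε hε
  filter_upwards [key] with j h1 hj S hS
  have h2 := h1 S hS
  simp only [if_pos hj] at h2
  exact h2.trans (le_of_eq (by ring))

/-- **The field `ab` of `Trk4`** for one pattern for each window. -/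
theorem AbIn.ab {V : ℕ → Θ → ℕ → ℤ × ℤ → ℂ} (h : AbIn R F Ω T f Z) (hR : Tendsto R F atTop)
    (hV : ∀ K ⊆ Ω, IsCompact K → ∀ ρ : ℝ, 0 < ρ → ∀ᶠ j in F, ∀ θ ∈ T j, ∀ v : ℤ × ℤ,
      lat v / (R j : ℂ) ∈ K →
      ‖V j θ ⌊ρ * R j⌋₊ v‖ ≤ ‖f j θ v (Complex.exp (2 * Complex.I * uN ⌊ρ * R j⌋₊ / 3))‖)
    {θ : ℕ → Θ} (hθ : ∀ᶠ j in F, θ j ∈ T j) :
    ∀ K ⊆ Ω, IsCompact K → ∃ ρ1 > 0, ∀ ρ : ℝ, 0 < ρ → ρ < ρ1 → ∀ ε > 0, ∀ᶠ j in F,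
      ∀ S : Finset (ℤ × ℤ), (∀ v ∈ S, lat v / (R j : ℂ) ∈ K) →
      ∑ v ∈ S, ‖V j (θ j) ⌊ρ * R j⌋₊ v‖ ≤ ε * R j ^ 2 := by
  intro K hK hKc
  refine ⟨1, one_pos, fun ρ hρ _ ε hε => ?_⟩
  filter_upwards [h.ab_unif hR hV hK hKc hρ hε, hθ] with j h1 h2
  exact h1 _ h2

/-- **The field `ab` of `Trk4`** for mixtures of patterns. -/
theorem AbIn.ab_mix {V : ℕ → Θ → ℕ → ℤ × ℤ → ℂ} (h : AbIn R F Ω T f Z) (hR : Tendsto R F atTop)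
    (hV : ∀ K ⊆ Ω, IsCompact K → ∀ ρ : ℝ, 0 < ρ → ∀ᶠ j in F, ∀ θ ∈ T j, ∀ v : ℤ × ℤ,
      lat v / (R j : ℂ) ∈ K →
      ‖V j θ ⌊ρ * R j⌋₊ v‖ ≤ ‖f j θ v (Complex.exp (2 * Complex.I * uN ⌊ρ * R j⌋₊ / 3))‖)
    {I : Type*} {J : ℕ → Finset I} {w : ℕ → I → ℂ} {θ : ℕ → I → Θ} {W : ℝ}
    (hw : ∀ j, ∑ i ∈ J j, ‖w j i‖ ≤ W) (hθ : ∀ j, ∀ i ∈ J j, θ j i ∈ T j) :
    ∀ K ⊆ Ω, IsCompact K → ∃ ρ1 > 0, ∀ ρ : ℝ, 0 < ρ → ρ < ρ1 → ∀ ε > 0, ∀ᶠ j in F,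
      ∀ S : Finset (ℤ × ℤ), (∀ v ∈ S, lat v / (R j : ℂ) ∈ K) →
      ∑ v ∈ S, ‖∑ i ∈ J j, w j i * V j (θ j i) ⌊ρ * R j⌋₊ v‖ ≤ ε * R j ^ 2 := by
  intro K hK hKc
  refine ⟨1, one_pos, fun ρ hρ _ ε hε => ?_⟩
  have hε' : 0 < ε / (|W| + 1) := by positivity
  filter_upwards [h.ab_unif hR hV hK hKc hρ hε'] with j h1 S hS
  have hW : ∑ i ∈ J j, ‖w j i‖ ≤ |W| + 1 := (hw j).trans (by linarith [le_abs_self W])
  calc ∑ v ∈ S, ‖∑ i ∈ J j, w j i * V j (θ j i) ⌊ρ * R j⌋₊ v‖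
      ≤ ∑ v ∈ S, ∑ i ∈ J j, ‖w j i‖ * ‖V j (θ j i) ⌊ρ * R j⌋₊ v‖ := by
        refine Finset.sum_le_sum fun v _ => (norm_sum_le _ _).trans (le_of_eq ?_)
        exact Finset.sum_congr rfl fun i _ => norm_mul _ _
    _ = ∑ i ∈ J j, ‖w j i‖ * ∑ v ∈ S, ‖V j (θ j i) ⌊ρ * R j⌋₊ v‖ := by
        rw [Finset.sum_comm]
        exact Finset.sum_congr rfl fun i _ => (Finset.mul_sum _ _ _).symm
    _ ≤ ∑ i ∈ J j, ‖w j i‖ * (ε / (|W| + 1) * R j ^ 2) :=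
        Finset.sum_le_sum fun i hi => mul_le_mul_of_nonneg_left (h1 _ (hθ j i hi) S hS)
          (norm_nonneg _)
    _ = (∑ i ∈ J j, ‖w j i‖) * (ε / (|W| + 1) * R j ^ 2) := by rw [Finset.sum_mul]
    _ ≤ (|W| + 1) * (ε / (|W| + 1) * R j ^ 2) := by gcongr
    _ = ε * R j ^ 2 := by field_simp

end Pool.Agent.H32.W.Ab
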