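import Mathlib
import Pool.Agent.H32.W.Ab
import Pool.Agent.H93.W.PatH
import Pool.Agent.Q1.M6b.WtsW

set_option autoImplicit false
open Finset Filter Topology Metric

/-! # The two natural environments of a window with a moved line, as functions of `t = exp (2 i u / 3)`

`GV D F τ κ x0 s t` : mean of the functional `F τ`, line at the position `τ` with the weights `aT t`, `bT t`,
`cT t`, string (column `x0`, rows `≥ s`) frozen with the weight `κ` of {W-N, S-E}. `fV` : line on the floor minus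
line on the ceiling. `XV` : the coupon at the tile `(x0, s)`. `fV_eq` : `fV = (aT - κ) XV`. -/

namespace Pool.Agent.H32.W.Win

open Pool.Agent.H75.Perc Pool.Agent.H75.TwoArm Pool.Agent.Q1
open Pool.Agent.H33.Q1 (lt tt lt_inj tt_lt)
open Pool.Agent.H40.R45 (aT bT aT_diff bT_diff kapT wa_aT)
open Pool.Agent.H64.Q1 (wa)
open Pool.Agent.Q1.M6b.ABW (cT)
open Pool.Agent.Q1.M6b.AB (Ec_diff exists_rap sin_ne)
open Pool.Agent.H54.W Pool.Agent.H21.W.Tau Pool.Agent.H21.W.TauPos Pool.Agent.H34.W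
open Pool.Agent.H25.W

variable {D : HWin}

/-! ### Differentiability -/

lemma cT_diff : DifferentiableOn ℂ cT (ball 0 (1 / 2)) :=
  aT_diff.comp (differentiable_id.const_mul _).differentiableOn fun t ht => by
    rw [mem_ball_zero_iff] at ht ⊢
    rwa [norm_mul, Pool.Agent.H40.R45.norm_w6_inv, one_mul]

lemma wal_diff {S : Set ℂ} {w : ℂ → ℂ} (hw : DifferentiableOn ℂ w S) (x y : ℤ) :
    DifferentiableOn ℂ (fun z => Pool.Agent.H46.Sp.Win.wal x y (w z)) S := by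
  unfold Pool.Agent.H46.Sp.Win.wal
  split_ifs
  · exact hw
  · exact hw.const_sub 1

lemma aH_diff {S : Set ℂ} (τ : ℤ → ℤ) {a b c : ℂ → ℂ} (ha : DifferentiableOn ℂ a S)
    (hb : DifferentiableOn ℂ b S) (hc : DifferentiableOn ℂ c S) (q : ℤ × ℤ) :
    DifferentiableOn ℂ (fun z => aH D τ (a z) (b z) (c z) q) S := by
  unfold aH HWin.wA
  split_ifs
  · exact hb.const_sub 1
  · exact hc.const_sub 1
  · exact (hb.fun_mul (ha.const_sub 1)).const_sub 1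
  · exact (hc.const_sub 1).fun_mul ha
  · exact ha
  · exact hb.const_sub 1
  · exact hc.const_sub 1
  · exact differentiableOn_const _

lemma aS_diff {S : Set ℂ} (τ : ℤ → ℤ) {a b c : ℂ → ℂ} (ha : DifferentiableOn ℂ a S)
    (hb : DifferentiableOn ℂ b S) (hc : DifferentiableOn ℂ c S) (κ : ℂ) (x0 s : ℤ) (q : ℤ × ℤ) :
    DifferentiableOn ℂ (fun z => aS D τ (a z) (b z) (c z) κ x0 s q) S := by
  unfold aS str
  split_ifs
  · exact differentiableOn_const _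
  · exact aH_diff τ ha hb hc q

lemma VF_diff {S : Set ℂ} (F : (ℤ → ℤ) → Finset (ℤ × ℤ) → ℂ) (τ : ℤ → ℤ) {α : ℂ → ℤ × ℤ → ℂ}
    (hα : ∀ q, DifferentiableOn ℂ (fun z => α z q) S) :
    DifferentiableOn ℂ (fun z => VF D F τ (α z)) S := by
  unfold VF
  refine Ec_diff (q := fun e z => opw (α z) e) (fun e => ?_) _ _
  unfold opw
  exact wal_diff (hα _) _ _

/-! ### The functions -/

/-- the mean of the functional at the position `τ`, string from the row `s` -/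
noncomputable def GV (D : HWin) (F : (ℤ → ℤ) → Finset (ℤ × ℤ) → ℂ) (τ : ℤ → ℤ) (κ : ℂ) (x0 s : ℤ)
    (t : ℂ) : ℂ := VF D F τ (aS D τ (aT t) (bT t) (cT t) κ x0 s)

/-- the line on the floor, string from `s + 1`, minus the line on the ceiling, string from `s` -/
noncomputable def fV (D : HWin) (F : (ℤ → ℤ) → Finset (ℤ × ℤ) → ℂ) (κ : ℂ) (x0 s : ℤ) (t : ℂ) : ℂ :=
  GV D F D.a κ x0 (s + 1) t - GV D F (fun _ => D.w) κ x0 s t

/-- the coupon at the tile `(x0, s)`, string from `s + 1` -/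
noncomputable def XV (D : HWin) (F : (ℤ → ℤ) → Finset (ℤ × ℤ) → ℂ) (τ : ℤ → ℤ) (κ : ℂ) (x0 s : ℤ)
    (t : ℂ) : ℂ := VF D F τ (put (x0, s) 1 (aS D τ (aT t) (bT t) (cT t) κ x0 (s + 1))) -
      VF D F τ (put (x0, s) 0 (aS D τ (aT t) (bT t) (cT t) κ x0 (s + 1)))

variable {F : (ℤ → ℤ) → Finset (ℤ × ℤ) → ℂ} {κ : ℂ} {x0 s : ℤ}

theorem GV_diff (F : (ℤ → ℤ) → Finset (ℤ × ℤ) → ℂ) (τ : ℤ → ℤ) (κ : ℂ) (x0 s : ℤ) :
    DifferentiableOn ℂ (GV D F τ κ x0 s) (ball 0 (1 / 2)) :=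
  VF_diff F τ fun q => aS_diff τ aT_diff bT_diff cT_diff κ x0 s q

theorem fV_diff (F : (ℤ → ℤ) → Finset (ℤ × ℤ) → ℂ) (κ : ℂ) (x0 s : ℤ) :
    DifferentiableOn ℂ (fV D F κ x0 s) (ball 0 (1 / 2)) :=
  (GV_diff F _ κ x0 (s + 1)).fun_sub (GV_diff F _ κ x0 s)

theorem XV_diff (F : (ℤ → ℤ) → Finset (ℤ × ℤ) → ℂ) (τ : ℤ → ℤ) (κ : ℂ) (x0 s : ℤ) :
    DifferentiableOn ℂ (XV D F τ κ x0 s) (ball 0 (1 / 2)) := by
  have h : ∀ (v : ℂ) (q : ℤ × ℤ), DifferentiableOn ℂ (fun t : ℂ => put (x0, s) v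
      (aS D τ (aT t) (bT t) (cT t) κ x0 (s + 1)) q) (ball 0 (1 / 2)) := by
    intro v q
    unfold put
    split_ifs
    · exact differentiableOn_const _
    · exact aS_diff τ aT_diff bT_diff cT_diff κ x0 (s + 1) q
  exact (VF_diff F τ (h 1)).fun_sub (VF_diff F τ (h 0))

/-- the line weights at the rapidity `u` -/
lemma wts_rap {u : ℂ} (h : 1 ≤ u.im) : wa u = aT (Complex.exp (2 * Complex.I * u / 3)) ∧
    wa (u + Real.pi / 2) = bT (Complex.exp (2 * Complex.I * u / 3)) ∧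
    wa (u - Real.pi / 2) = cT (Complex.exp (2 * Complex.I * u / 3)) := by
  have h3 : ((Real.pi : ℂ) / 2).im = 0 := by
    rw [Complex.div_ofNat_im]; simp
  have h1 : ((u + Real.pi) / 3).im = u.im / 3 := by
    simp [Complex.div_ofNat_im]
  have h2 : ((u + Real.pi / 2 + Real.pi) / 3).im = u.im / 3 := by
    rw [Complex.div_ofNat_im, Complex.add_im, Complex.add_im, h3]
    simp
  have h4 : ((u - Real.pi / 2 + Real.pi) / 3).im = u.im / 3 := by
    rw [Complex.div_ofNat_im, Complex.add_im, Complex.sub_im, h3]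
    simp
  exact ⟨wa_aT u (sin_ne (by rw [h1]; linarith)),
    Pool.Agent.H40.R45.wa_bT u (sin_ne (by rw [h2]; linarith)),
    Pool.Agent.Q1.M6b.ABW.wa_cT u (sin_ne (by rw [h4]; linarith))⟩

lemma sin2_rap {u : ℂ} (h : 1 ≤ u.im) : Complex.sin (2 * u) ≠ 0 := by
  refine sin_ne ?_
  have : (2 * u).im = 2 * u.im := by simp
  rw [this]
  linarith

/-- the value at a rapidity -/
lemma GV_rap {u : ℂ} (h : 1 ≤ u.im) (F : (ℤ → ℤ) → Finset (ℤ × ℤ) → ℂ) (τ : ℤ → ℤ) (κ : ℂ) (x0 s : ℤ) :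
    GV D F τ κ x0 s (Complex.exp (2 * Complex.I * u / 3)) =
      VF D F τ (aS D τ (wa u) (wa (u + Real.pi / 2)) (wa (u - Real.pi / 2)) κ x0 s) := by
  obtain ⟨h1, h2, h3⟩ := wts_rap h
  unfold GV
  rw [h1, h2, h3]

/-- **The track identity near `t = 0`.** -/
theorem fV_eq (hE : ∀ u : ℂ, 1 ≤ u.im → ∀ s' : ℤ, D.a x0 ≤ s' →
      ExF D F x0 s' (wa u) (wa (u + Real.pi / 2)) (wa (u - Real.pi / 2)) κ)
    (hp : D.p ≤ x0) (hq : x0 < D.q) (hs : D.a x0 ≤ s) (hw : s + 1 ≤ D.w) {x₁ x₂ : ℤ}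
    (C : HComp D (s + 1) x₁ x₂) (c1 : x₁ ≤ x0) (c2 : x0 < x₂) {t : ℂ} (ht : t ∈ ball (0 : ℂ) (1 / 4)) :
    fV D F κ x0 s t = (aT t - κ) * XV D F (hseg D (s + 1) x₁ x₂) κ x0 s t := by
  have main : ∀ t : ℂ, t ≠ 0 → ‖t‖ < 1 / 4 →
      fV D F κ x0 s t = (aT t - κ) * XV D F (hseg D (s + 1) x₁ x₂) κ x0 s t := by
    intro t h0 h1
    obtain ⟨u, hu, rfl⟩ := exists_rap h0 h1
    obtain ⟨e1, e2, e3⟩ := wts_rap hu
    have key := track_win (hE u hu s hs) (hE u hu (s + 1) (by omega)) hp hq hs hw C c1 c2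
    unfold fV XV GV
    rw [← e1, ← e2, ← e3]
    exact key
  by_cases h0 : t = 0
  swap
  · exact main t h0 (by rwa [mem_ball_zero_iff] at ht)
  subst h0
  have hsub : ball (0 : ℂ) (1 / 4) ⊆ ball 0 (1 / 2) := ball_subset_ball (by norm_num)
  have hm : (0 : ℂ) ∈ ball (0 : ℂ) (1 / 2) := mem_ball_self (by norm_num)
  have hc1 : ContinuousAt (fV D F κ x0 s) 0 :=
    ((fV_diff F κ x0 s).differentiableAt (isOpen_ball.mem_nhds hm)).continuousAt
  have hc2 : ContinuousAt (fun t => (aT t - κ) * XV D F (hseg D (s + 1) x₁ x₂) κ x0 s t) 0 :=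
    (((aT_diff.sub_const κ).fun_mul (XV_diff F _ κ x0 s)).differentiableAt
      (isOpen_ball.mem_nhds hm)).continuousAt
  have t1 : Tendsto (fV D F κ x0 s) (𝓝[≠] 0) (𝓝 (fV D F κ x0 s 0)) :=
    hc1.tendsto.mono_left nhdsWithin_le_nhds
  have t2 : Tendsto (fun t => (aT t - κ) * XV D F (hseg D (s + 1) x₁ x₂) κ x0 s t) (𝓝[≠] 0)
      (𝓝 ((aT 0 - κ) * XV D F (hseg D (s + 1) x₁ x₂) κ x0 s 0)) :=
    hc2.tendsto.mono_left nhdsWithin_le_nhds
  refine tendsto_nhds_unique t1 (t2.congr' ?_)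
  have hb : ball (0 : ℂ) (1 / 4) ∈ 𝓝[≠] (0 : ℂ) :=
    nhdsWithin_le_nhds (isOpen_ball.mem_nhds (mem_ball_self (by norm_num)))
  filter_upwards [hb, self_mem_nhdsWithin] with y hy hy0
  exact (main y hy0 (by rwa [mem_ball_zero_iff] at hy)).symm

end Pool.Agent.H32.W.Win
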