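import Mathlib
import Pool.Agent.H32.W.AbWin
import Pool.Agent.H32.W.AbTrk
import Pool.Agent.H25.W.TrackV

set_option autoImplicit false
open Finset Filter Topology Metric ComplexConjugate

/-! # The line values in the vertical frame are conjugates of the values in the horizontal frame

`V_uN` : at the rapidity `π / 2 + i log n` the mean of `F` in the window `D : Win` (row `r` frozen from the column
`s`, weight `w6` of {W-N, S-E}) is the conjugate of the mean of the conjugate functional in the rotated window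
(column `- r - 1` frozen from the row `s`, weight `w6` of {W-N, S-E}) at the same rapidity. -/

namespace Pool.Agent.H32.W.Win

open Pool.Agent.H75.Perc Pool.Agent.H75.TwoArm Pool.Agent.Q1
open Pool.Agent.H33.Q1 (lt tt lt_inj tt_lt)
open Pool.Agent.H40.R45 (aT bT aT_diff bT_diff kapT wa_aT)
open Pool.Agent.H64.Q1 (wa)
open Pool.Agent.Q1.M6b.ABW (cT)
open Pool.Agent.H54.W Pool.Agent.H21.W.Tau Pool.Agent.H21.W.TauPos Pool.Agent.H34.W
open Pool.Agent.H25.W
open Pool.Agent.H32.W.Ab (uN uN_im)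

/-- the conjugate functional -/
noncomputable def cjF (F : (ℤ → ℤ) → Finset (ℤ × ℤ) → ℂ) (τ : ℤ → ℤ) (ω : Finset (ℤ × ℤ)) : ℂ :=
  conj (F τ ω)

lemma Ec_conj {α : Type*} [DecidableEq α] (q : α → ℂ) (E : Finset α) (F : Finset α → ℂ) :
    conj (Ec q E F) = Ec (fun e => conj (q e)) E (fun ω => conj (F ω)) := by
  unfold Ec wtc
  rw [map_sum]
  refine sum_congr rfl fun ω _ => ?_
  rw [map_mul, map_mul, map_prod, map_prod]
  simp only [map_sub, map_one]

lemma VJ_conj {D : Win} (F : (ℤ → ℤ) → Finset (ℤ × ℤ) → ℂ) (τ : ℤ → ℤ) (α : ℤ × ℤ → ℂ) :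
    conj (VJ D F τ α) = VJ D (cjF F) τ (fun q => conj (α q)) := by
  unfold VJ
  rw [Ec_conj]
  refine Ec_congr_q (fun e _ => ?_) _
  unfold opw Win.wal
  split_ifs
  · rfl
  · rw [map_sub, map_one]

lemma wA_conj (D : Win) (τ : ℤ → ℤ) (a b c : ℂ) (x y : ℤ) :
    conj (D.wA τ a b c x y) = D.wA τ (conj a) (conj b) (conj c) x y := by
  unfold Win.wA
  split_ifs <;> simp
  exact map_ofNat (starRingEnd ℂ) 2

lemma aV_conj (D : Win) (τ : ℤ → ℤ) (a b c κ : ℂ) (r s : ℤ) (q : ℤ × ℤ) :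
    conj (aV D τ a b c κ r s q) = aV D τ (conj a) (conj b) (conj c) (conj κ) r s q := by
  unfold aV
  split_ifs
  · rfl
  · exact wA_conj D τ a b c _ _

lemma wa_conj (u : ℂ) : wa (conj u) = conj (wa u) := by
  unfold wa
  rw [map_div₀, ← Complex.sin_conj, ← Complex.sin_conj, map_div₀, map_div₀, map_add,
    Complex.conj_ofReal, map_ofNat]

lemma conj_w6 : conj w6 = w6⁻¹ := by
  have h1 : conj w6 * w6 = 1 := by
    rw [mul_comm, Complex.mul_conj, w6_normSq, Complex.ofReal_one]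
  exact eq_inv_of_mul_eq_one_left h1

lemma pi_sub_uN (n : ℕ) : (Real.pi : ℂ) - conj (uN n) = uN n := by
  unfold uN
  rw [map_add, map_div₀, map_mul, Complex.conj_I, Complex.conj_ofReal, Complex.conj_ofReal,
    map_ofNat]
  ring

lemma one_sub_wa_conj {v : ℂ} (h : Complex.sin v ≠ 0) : 1 - conj (wa v) = wa (Real.pi - conj v) := by
  rw [← wa_conj]
  refine wa_pi_sub _ (sin3_ne ?_)
  rw [Complex.sin_conj]
  intro h0
  apply h
  have := congrArg conj h0
  simpa using this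

/-- **The values in the two frames**, any rapidity `v`; in the horizontal frame it is `π - conj v`. -/
theorem V_conj {D : Win} (F : (ℤ → ℤ) → Finset (ℤ × ℤ) → ℂ) {τ : ℤ → ℤ} (H : Pos D τ) (r s : ℤ)
    {v : ℂ} (hv : 1 ≤ v.im) :
    VJ D F τ (aV D τ (wa v) (wa (v + Real.pi / 2)) (wa (v - Real.pi / 2)) w6 r s) =
      conj (GV D.toH (rotF (cjF F)) (Win.rt τ) w6 (-r - 1) s
        (Complex.exp (2 * Complex.I * (Real.pi - conj v) / 3))) := by
  have hu : 1 ≤ ((Real.pi : ℂ) - conj v).im := by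
    rw [Complex.sub_im, Complex.ofReal_im, Complex.conj_im]
    linarith
  have hp : conj ((Real.pi : ℂ) / 2) = Real.pi / 2 := by
    rw [map_div₀, Complex.conj_ofReal, map_ofNat]
  have hp2 : ((Real.pi : ℂ) / 2).im = 0 := by
    rw [Complex.div_ofNat_im]; simp
  have hsin : ∀ w : ℂ, w.im ≠ 0 → Complex.sin w ≠ 0 := fun w hw => Pool.Agent.Q1.M6b.AB.sin_ne hw
  have e1 : 1 - conj (wa v) = wa ((Real.pi : ℂ) - conj v) := one_sub_wa_conj (hsin _ (by linarith))
  have e2 : 1 - conj (wa (v - Real.pi / 2)) = wa ((Real.pi : ℂ) - conj v + Real.pi / 2) := by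
    rw [one_sub_wa_conj (hsin _ (by rw [Complex.sub_im, hp2]; linarith)), map_sub, hp]
    congr 1
    ring
  have e3 : 1 - conj (wa (v + Real.pi / 2)) = wa ((Real.pi : ℂ) - conj v - Real.pi / 2) := by
    rw [one_sub_wa_conj (hsin _ (by rw [Complex.add_im, hp2]; linarith)), map_add, hp]
    congr 1
    ring
  have e4 : 1 - conj w6 = w6 := by
    rw [conj_w6, Pool.Agent.H40.R45.w6_inv]
    ring
  have key := VF_rot (D := D) (F := cjF F) H (fun x y h => aS_rot (a := conj (wa v))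
    (b := conj (wa (v + Real.pi / 2))) (c := conj (wa (v - Real.pi / 2))) (κ := conj w6)
    (r := r) (s := s) H h)
  rw [e1, e2, e3, e4] at key
  rw [GV_rap hu, key]
  have h2 := VJ_conj (D := D) F τ
    (aV D τ (wa v) (wa (v + Real.pi / 2)) (wa (v - Real.pi / 2)) w6 r s)
  have h3 : (fun q => conj (aV D τ (wa v) (wa (v + Real.pi / 2)) (wa (v - Real.pi / 2))
      w6 r s q)) = aV D τ (conj (wa v)) (conj (wa (v + Real.pi / 2)))
      (conj (wa (v - Real.pi / 2))) (conj w6) r s := funext fun q => aV_conj D τ _ _ _ _ r s q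
  rw [h3] at h2
  rw [← h2, Complex.conj_conj]

/-- the same, from the rapidity `u` of the horizontal frame -/
theorem V_conj' {D : Win} (F : (ℤ → ℤ) → Finset (ℤ × ℤ) → ℂ) {τ : ℤ → ℤ} (H : Pos D τ) (r s : ℤ)
    {u : ℂ} (hu : 1 ≤ u.im) :
    GV D.toH (rotF (cjF F)) (Win.rt τ) w6 (-r - 1) s (Complex.exp (2 * Complex.I * u / 3)) =
      conj (VJ D F τ (aV D τ (wa (Real.pi - conj u)) (wa (Real.pi - conj u + Real.pi / 2))
        (wa (Real.pi - conj u - Real.pi / 2)) w6 r s)) := by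
  have hv : 1 ≤ ((Real.pi : ℂ) - conj u).im := by
    rw [Complex.sub_im, Complex.ofReal_im, Complex.conj_im]
    linarith
  rw [V_conj F H r s hv, Complex.conj_conj]
  congr 4
  rw [map_sub, Complex.conj_ofReal, Complex.conj_conj]
  ring

/-- **The line values in the two frames.** -/
theorem V_uN {D : Win} (F : (ℤ → ℤ) → Finset (ℤ × ℤ) → ℂ) {τ : ℤ → ℤ} (H : Pos D τ) (r s : ℤ)
    {n : ℕ} (hn : 1 ≤ Real.log n) :
    VJ D F τ (aV D τ (wa (uN n)) (wa (uN n + Real.pi / 2)) (wa (uN n - Real.pi / 2)) w6 r s) =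
      conj (GV D.toH (rotF (cjF F)) (Win.rt τ) w6 (-r - 1) s
        (Complex.exp (2 * Complex.I * uN n / 3))) := by
  rw [V_conj F H r s (by rw [uN_im]; exact hn), pi_sub_uN]

/-- **The difference of the two worlds in the two frames.** -/
theorem dV_uN (D : Win) (F : (ℤ → ℤ) → Finset (ℤ × ℤ) → ℂ) (r s : ℤ) {n : ℕ}
    (hn : 1 ≤ Real.log n) :
    VJ D F D.a (aV D D.a (wa (uN n)) (wa (uN n + Real.pi / 2)) (wa (uN n - Real.pi / 2)) w6
        r (s + 1)) -
      VJ D F (fun _ => D.w) (aV D (fun _ => D.w) (wa (uN n)) (wa (uN n + Real.pi / 2))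
        (wa (uN n - Real.pi / 2)) w6 r s) =
      conj (fV D.toH (rotF (cjF F)) w6 (-r - 1) s (Complex.exp (2 * Complex.I * uN n / 3))) := by
  rw [V_uN F (pos_left D) r (s + 1) hn, V_uN F (pos_right D) r s hn]
  unfold fV
  rw [map_sub]
  rfl

/-- the conjugate of a functional of the pattern is a functional of the pattern -/
lemma cjF_FJ (D : Win) (Z Wo : Finset (ℤ × ℤ)) (Ψ : (ℤ × ℤ → ℤ × ℤ → Prop) → ℂ) :
    cjF (FJ D Z Wo Ψ) = FJ D Z Wo (fun R => conj (Ψ R)) := rfl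

lemma Fz_w6_inv : Pool.Agent.H11.W.Fz w6⁻¹ := by
  unfold Pool.Agent.H11.W.Fz
  rw [Pool.Agent.H40.R45.w6_inv]
  linear_combination -w6_sq

/-- **The track identity near `t = 0`** for functions of the pattern, horizontal frame. -/
theorem fV_eq_pat {D : HWin} {Z Wo : Finset (ℤ × ℤ)} (hZ : D.GA ⊆ Z)
    (far : ∀ x y, lt (x, y) ∈ Wo → ¬ D.InZ x y) {x0 s : ℤ}
    (hp : D.p ≤ x0) (hq : x0 < D.q) (hs : D.a x0 ≤ s) (hw : s + 1 ≤ D.w) {x₁ x₂ : ℤ}
    (C : HComp D (s + 1) x₁ x₂) (c1 : x₁ ≤ x0) (c2 : x0 < x₂)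
    (Ψ : (ℤ × ℤ → ℤ × ℤ → Prop) → ℂ) {t : ℂ} (ht : t ∈ ball (0 : ℂ) (1 / 4)) :
    fV D (FP D Z Wo Ψ) w6 x0 s t = kapT t * XV D (FP D Z Wo Ψ) (hseg D (s + 1) x₁ x₂) w6 x0 s t := by
  have e4 : 1 - w6⁻¹ = w6 := by
    rw [Pool.Agent.H40.R45.w6_inv]
    ring
  refine fV_eq (fun u hu s' hs' => ?_) hp hq hs hw C c1 c2 ht
  have h := exF_pat (D := D) (Wo := Wo) (Z := Z) hZ far (u := u) (ζ := w6⁻¹) (sin2_rap hu) Fz_w6_inv
    hp hq hs' Ψ
  rw [e4] at h
  exact h

/-- **The track identity near `t = 0`** for functions of the pattern of a window in the vertical frame. -/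
theorem fV_eq_patV {D : Win} {Z Wo : Finset (ℤ × ℤ)} (hZ : D.GA ⊆ Z)
    (far : ∀ x y, lt (x, y) ∈ Wo → ¬ D.InZ x y) {r s : ℤ}
    (hp : 0 ≤ r) (hq : r < D.h) (hs : D.a r ≤ s) (hw : s + 1 ≤ D.w) {y1 y2 : ℤ}
    (C : Comp D (s + 1) y1 y2) (c1 : y1 ≤ r) (c2 : r < y2)
    (Ψ : (ℤ × ℤ → ℤ × ℤ → Prop) → ℂ) {t : ℂ} (ht : t ∈ ball (0 : ℂ) (1 / 4)) :
    fV D.toH (rotF (cjF (FJ D Z Wo Ψ))) w6 (-r - 1) s t =
      kapT t * XV D.toH (rotF (cjF (FJ D Z Wo Ψ))) (hseg D.toH (s + 1) (-y2) (-y1)) w6 (-r - 1) s t := by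
  rw [cjF_FJ, rotF_FJ]
  refine fV_eq_pat (D := D.toH) ?_ ?_ ?_ ?_ ?_ ?_ (hcomp_toH C) (by omega) (by omega) _ ht
  · rw [GA_toH]
    exact map_subset_map.2 hZ
  · intro x y h
    rw [mem_rotL] at h
    rw [Win.toH_InZ]
    exact far _ _ h
  · simp only [Win.toH]; omega
  · simp only [Win.toH]; omega
  · simp only [Win.toH]
    rwa [show -(-r - 1) - 1 = r by ring]
  · simp only [Win.toH]; exact hw

end Pool.Agent.H32.W.Win
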