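import Mathlib
import Pool.Agent.H32.W.AbConj
import Pool.Agent.H64.W.FarH
import Pool.Agent.H76.W.AsmZ

set_option autoImplicit false
open Finset Filter Topology Metric ComplexConjugate

/-! # The functional `incO` at an outer corner

`FI O ct` : the increment at the corner `ct`. `fV_eq_inc` : the track identity near `t = 0`. `XV_inc` : the coupon
is helper85's `Gz`. -/

namespace Pool.Agent.H32.W.Win

open Pool.Agent.H75.Perc Pool.Agent.H75.TwoArm Pool.Agent.Q1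
open Pool.Agent.H33.Q1 (lt tt lt_inj tt_lt)
open Pool.Agent.H40.R45 (aT bT aT_diff bT_diff kapT wa_aT)
open Pool.Agent.H64.Q1 (wa)
open Pool.Agent.Q1.M6b.ABW (cT)
open Pool.Agent.H54.W Pool.Agent.H21.W.Tau Pool.Agent.H21.W.TauPos Pool.Agent.H34.W
open Pool.Agent.H25.W
open Pool.Agent.H64.W (OutC exF_inc)
open Pool.Agent.H85.W (upd upd_self upd_ne Gz)
open Pool.Agent.H74.R45 (exists_lt)

variable {D : HWin} {O : HOut D} {ct : ℤ × ℤ} {x0 s : ℤ}

/-- the increment at the corner `ct` -/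
noncomputable def FI (O : HOut D) (ct : ℤ × ℤ) (τ : ℤ → ℤ) (ω : Finset (ℤ × ℤ)) : ℂ :=
  (HWin.XH O τ).incO ω ct

lemma VF_FI (O : HOut D) (ct : ℤ × ℤ) (τ : ℤ → ℤ) (α : ℤ × ℤ → ℂ) :
    VF D (FI O ct) τ α = (HWin.XH O τ).incW (opw α) ct := rfl

lemma GV_FI (O : HOut D) (ct : ℤ × ℤ) (τ : ℤ → ℤ) (κ : ℂ) (x0 s : ℤ) (t : ℂ) :
    GV D (FI O ct) τ κ x0 s t =
      (HWin.XH O τ).incW (opw (aS D τ (aT t) (bT t) (cT t) κ x0 s)) ct := rfl

/-- **The track identity near `t = 0`** for the increment at an outer corner. -/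
theorem fV_eq_inc (O : HOut D) (hc : OutC D ct)
    (hp : D.p ≤ x0) (hq : x0 < D.q) (hs : D.a x0 ≤ s) (hw : s + 1 ≤ D.w) {x₁ x₂ : ℤ}
    (C : HComp D (s + 1) x₁ x₂) (c1 : x₁ ≤ x0) (c2 : x0 < x₂) {t : ℂ} (ht : t ∈ ball (0 : ℂ) (1 / 4)) :
    fV D (FI O ct) w6 x0 s t = kapT t * XV D (FI O ct) (hseg D (s + 1) x₁ x₂) w6 x0 s t := by
  have e4 : 1 - w6⁻¹ = w6 := by
    rw [Pool.Agent.H40.R45.w6_inv]
    ring
  refine fV_eq (fun u hu s' hs' => ?_) hp hq hs hw C c1 c2 ht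
  have h := exF_inc (D := D) O (u := u) (ζ := w6⁻¹) (c := ct) (sin2_rap hu) Fz_w6_inv hp hq hs' hc
  rw [e4] at h
  exact h

/-- the weights with one changed tile -/
lemma opw_put {α : ℤ × ℤ → ℂ} {v : ℂ} {e : ℤ × ℤ} (he : (e.1 + e.2) % 2 = 1) :
    opw (put (x0, s) v α) e = upd (opw α) (lt (x0, s)) (Win.wal x0 s v) e := by
  obtain ⟨x, y, rfl⟩ := exists_lt he
  rw [opw_lt]
  by_cases h : (x, y) = (x0, s)
  · rw [h, upd_self]
    simp only [Prod.mk.injEq] at h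
    obtain ⟨rfl, rfl⟩ := h
    unfold put
    rw [if_pos rfl]
  · rw [upd_ne _ _ fun h' => h (lt_inj h'), opw_lt]
    unfold put
    rw [if_neg h]

/-- the sign of the coupon -/
noncomputable def sgc (x0 s : ℤ) : ℂ := if (x0 + s) % 2 = 0 then 1 else -1

lemma norm_sgc (x0 s : ℤ) : ‖sgc x0 s‖ = 1 := by
  unfold sgc
  split_ifs <;> simp

/-- **The coupon.** -/
theorem XV_inc (O : HOut D) (ct : ℤ × ℤ) (τ : ℤ → ℤ) (κ : ℂ) (x0 s : ℤ) (t : ℂ) :
    XV D (FI O ct) τ κ x0 s t = sgc x0 s *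
      Gz (HWin.XH O τ) (opw (aS D τ (aT t) (bT t) (cT t) κ x0 (s + 1))) (lt (x0, s)) ct := by
  have key : ∀ v : ℂ, VF D (FI O ct) τ (put (x0, s) v (aS D τ (aT t) (bT t) (cT t) κ x0 (s + 1))) =
      (HWin.XH O τ).incW (upd (opw (aS D τ (aT t) (bT t) (cT t) κ x0 (s + 1))) (lt (x0, s))
        (Win.wal x0 s v)) ct := by
    intro v
    rw [VF_FI]
    unfold Env.incW
    exact Ec_congr_q (fun e he => opw_put (HWin.odd_EH he)) _
  unfold XV Gz sgc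
  rw [key, key]
  unfold Win.wal
  split_ifs
  · ring
  · ring_nf

end Pool.Agent.H32.W.Win
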