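import Mathlib
import Pool.Agent.H32.W.AbInc
import Pool.Agent.H25.W.TrackIncV

set_option autoImplicit false
open Finset Filter Topology Metric

/-! # The line values in the vertical frame at the rapidity `π - u`

`V_dir` : the mean in the window `D : Win` at the rapidity `π - u` (row `r` frozen from the column `s`, weight
`w6⁻¹` of {W-N, S-E}) is literally the mean in the rotated window at the rapidity `u` (column `- r - 1` frozen from
the row `s`, weight `w6` of {W-N, S-E}). `dV_dir` : the difference of the two worlds. `dV_inc` : for increments. -/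

namespace Pool.Agent.H32.W.Win

open Pool.Agent.H75.Perc Pool.Agent.H75.TwoArm Pool.Agent.Q1
open Pool.Agent.H33.Q1 (lt tt lt_inj tt_lt)
open Pool.Agent.H40.R45 (aT bT aT_diff bT_diff kapT wa_aT)
open Pool.Agent.H64.Q1 (wa)
open Pool.Agent.Q1.M6b.ABW (cT)
open Pool.Agent.H54.W Pool.Agent.H21.W.Tau Pool.Agent.H21.W.TauPos Pool.Agent.H34.W
open Pool.Agent.H25.W (VJ aV rotF aS_rot VF_rot wts_rot VF_rotF_FI FIH)
open Pool.Agent.H32.W.Ab (uN uN_im)

/-- weights of the vertical frame at the rapidity `v`, frozen row with the weight `w6⁻¹` -/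
noncomputable def aVw (D : Win) (τ : ℤ → ℤ) (v : ℂ) (r s : ℤ) : ℤ × ℤ → ℂ :=
  aV D τ (wa v) (wa (v + Real.pi / 2)) (wa (v - Real.pi / 2)) w6⁻¹ r s

lemma one_sub_w6_inv : 1 - w6⁻¹ = w6 := by
  rw [Pool.Agent.H40.R45.w6_inv]
  ring

/-- the weights of the rotated window at the rapidity `π - u` -/
lemma wts_dir {u : ℂ} (hu : 1 ≤ u.im) : 1 - wa (Real.pi - u) = wa u ∧
    1 - wa (Real.pi - u - Real.pi / 2) = wa (u + Real.pi / 2) ∧
    1 - wa (Real.pi - u + Real.pi / 2) = wa (u - Real.pi / 2) := by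
  have h : Complex.sin (2 * (Real.pi - u)) ≠ 0 := by
    have e : 2 * ((Real.pi : ℂ) - u) = 2 * Real.pi - 2 * u := by ring
    rw [e, Complex.sin_two_pi_sub]
    exact neg_ne_zero.2 (sin2_rap hu)
  obtain ⟨h1, h2, h3⟩ := wts_rot h
  rw [sub_sub_cancel] at h1 h2 h3
  exact ⟨h1, h2, h3⟩

/-- **The values in the two frames.** -/
theorem V_dir {D : Win} (F : (ℤ → ℤ) → Finset (ℤ × ℤ) → ℂ) {τ : ℤ → ℤ} (H : Pos D τ) (r s : ℤ)
    {u : ℂ} (hu : 1 ≤ u.im) :
    VJ D F τ (aVw D τ (Real.pi - u) r s) =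
      GV D.toH (rotF F) (Win.rt τ) w6 (-r - 1) s (Complex.exp (2 * Complex.I * u / 3)) := by
  obtain ⟨e1, e2, e3⟩ := wts_dir hu
  have key := VF_rot (D := D) (F := F) H (fun x y h => aS_rot (a := wa (Real.pi - u))
    (b := wa (Real.pi - u + Real.pi / 2)) (c := wa (Real.pi - u - Real.pi / 2)) (κ := w6⁻¹)
    (r := r) (s := s) H h)
  rw [e1, e2, e3, one_sub_w6_inv] at key
  rw [GV_rap hu, key]
  rfl

/-- **The difference of the two worlds in the two frames.** -/
theorem dV_dir (D : Win) (F : (ℤ → ℤ) → Finset (ℤ × ℤ) → ℂ) (r s : ℤ) {u : ℂ} (hu : 1 ≤ u.im) :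
    VJ D F D.a (aVw D D.a (Real.pi - u) r (s + 1)) -
      VJ D F (fun _ => D.w) (aVw D (fun _ => D.w) (Real.pi - u) r s) =
      fV D.toH (rotF F) w6 (-r - 1) s (Complex.exp (2 * Complex.I * u / 3)) := by
  rw [V_dir F (pos_left D) r (s + 1) hu, V_dir F (pos_right D) r s hu]
  rfl

/-- the increment in the horizontal frame -/
lemma FI_FIH {D : HWin} (O : HOut D) (ct : ℤ × ℤ) : FIH O ct = FI O ct := rfl

/-- **Increments in the two frames.** -/
theorem V_inc {D : Win} (O : Out D) (O' : HOut D.toH) (hW : O'.Wo = O.Wo.map rotL)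
    (hc : O'.c0 = rotc O.c0) (ct : ℤ × ℤ) {τ : ℤ → ℤ} (H : Pos D τ) (r s : ℤ) {u : ℂ}
    (hu : 1 ≤ u.im) :
    (Win.XJ O τ).incW (opw (aVw D τ (Real.pi - u) r s)) ct =
      w6 ^ (O.k0 - O'.k0) *
        GV D.toH (FI O' (rotc ct)) (Win.rt τ) w6 (-r - 1) s (Complex.exp (2 * Complex.I * u / 3)) := by
  have h := V_dir (Pool.Agent.H25.W.FI O ct) H r s hu
  rw [Pool.Agent.H25.W.VJ_FI] at h
  rw [h]
  unfold GV
  rw [VF_rotF_FI O O' hW hc ct (Win.pos_toH H) _]
  rfl

/-- **The difference of the two worlds**, increments. -/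
theorem dV_inc {D : Win} (O : Out D) (O' : HOut D.toH) (hW : O'.Wo = O.Wo.map rotL)
    (hc : O'.c0 = rotc O.c0) (ct : ℤ × ℤ) (r s : ℤ) {u : ℂ} (hu : 1 ≤ u.im) :
    (Win.XJ O D.a).incW (opw (aVw D D.a (Real.pi - u) r (s + 1))) ct -
      (Win.XJ O (fun _ => D.w)).incW (opw (aVw D (fun _ => D.w) (Real.pi - u) r s)) ct =
      w6 ^ (O.k0 - O'.k0) *
        fV D.toH (FI O' (rotc ct)) w6 (-r - 1) s (Complex.exp (2 * Complex.I * u / 3)) := by
  rw [V_inc O O' hW hc ct (pos_left D) r (s + 1) hu, V_inc O O' hW hc ct (pos_right D) r s hu]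
  unfold fV
  rw [mul_sub]
  rfl

end Pool.Agent.H32.W.Win
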