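import Mathlib
import Pool.Agent.H32.W.AbDir
import Pool.Agent.H20.Q1.BDg

set_option autoImplicit false
open Finset Filter Topology Metric

/-! # The weights at small `t = exp (2 i u / 3)`

`WOk θ a b c` : the merged weights `a (1 - a)`, .. are `Nr θ` and the weights are bounded. `wok_rap` : uniformly in
the rapidities `u` with `1 ≤ Im u`, `R ≤ B exp (Im u)`; both frames. -/

namespace Pool.Agent.H32.W.Bd

open Pool.Agent.H20.Q1 (Nr)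
open Pool.Agent.H40.R45 (aT bT aT_diff bT_diff kapT wa_aT norm_aT norm_bT lamT norm_lamT w6_mem norm_w6
  norm_w6_inv)
open Pool.Agent.H64.Q1 (wa)
open Pool.Agent.Q1
open Pool.Agent.Q1.M6b.ABW (cT norm_cT laT norm_laT lcT norm_lcT)
open Pool.Agent.H32.W.Win (wts_rap wts_dir)

/-- the weights of a line and of its ties -/
structure WOk (θ : ℝ) (a b c : ℂ) : Prop where
  na : Nr θ (a * (1 - a))
  nb : Nr θ (b * (1 - b))
  nc : Nr θ (c * (1 - c))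
  a0 : ‖a‖ ≤ 5
  b0 : ‖b‖ ≤ 5
  c0 : ‖c‖ ≤ 5
  a1 : ‖1 - a‖ ≤ 5
  b1 : ‖1 - b‖ ≤ 5
  c1 : ‖1 - c‖ ≤ 5

lemma nr_mono {θ θ' : ℝ} {z : ℂ} (h : Nr θ z) (hθ : θ ≤ θ') : Nr θ' z := by
  rcases h with h | h
  · exact Or.inl (h.trans hθ)
  · exact Or.inr h

/-- the size of `t` -/
lemma norm_rap (u : ℂ) : ‖Complex.exp (2 * Complex.I * u / 3)‖ = Real.exp (-(2 / 3) * u.im) := by
  rw [Complex.norm_exp]
  congr 1
  simp [Complex.mul_re, Complex.div_ofNat_re]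
  ring

/-- the size of `t` at the rapidities with `R ≤ B exp (Im u)` -/
lemma norm_rap_le {B R : ℝ} (hB : 0 < B) (hR : 0 < R) {u : ℂ} (h : R ≤ B * Real.exp u.im) :
    ‖Complex.exp (2 * Complex.I * u / 3)‖ ≤ B ^ (2 / 3 : ℝ) * R ^ (-(2 / 3) : ℝ) := by
  rw [norm_rap]
  have h1 : R ^ (2 / 3 : ℝ) ≤ (B * Real.exp u.im) ^ (2 / 3 : ℝ) :=
    Real.rpow_le_rpow hR.le h (by norm_num)
  rw [Real.mul_rpow hB.le (Real.exp_pos _).le, ← Real.exp_mul] at h1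
  have h2 : R ^ (-(2 / 3) : ℝ) * R ^ (2 / 3 : ℝ) = 1 := by
    rw [← Real.rpow_add hR]; norm_num
  have h3 : Real.exp (-(2 / 3) * u.im) * Real.exp (u.im * (2 / 3)) = 1 := by
    rw [← Real.exp_add]
    rw [show -(2 / 3) * u.im + u.im * (2 / 3) = 0 by ring, Real.exp_zero]
  have h4 : (0 : ℝ) < R ^ (-(2 / 3) : ℝ) := Real.rpow_pos_of_pos hR _
  have h5 : 0 < Real.exp (-(2 / 3) * u.im) := Real.exp_pos _
  calc Real.exp (-(2 / 3) * u.im) = Real.exp (-(2 / 3) * u.im) * (R ^ (-(2 / 3) : ℝ) * R ^ (2 / 3 : ℝ)) := by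
        rw [h2, mul_one]
    _ ≤ Real.exp (-(2 / 3) * u.im) * (R ^ (-(2 / 3) : ℝ) *
        (B ^ (2 / 3 : ℝ) * Real.exp (u.im * (2 / 3)))) := by gcongr
    _ = B ^ (2 / 3 : ℝ) * R ^ (-(2 / 3) : ℝ) *
        (Real.exp (-(2 / 3) * u.im) * Real.exp (u.im * (2 / 3))) := by ring
    _ = _ := by rw [h3, mul_one]

lemma norm_cT3 {t : ℂ} (ht : t ∈ ball (0 : ℂ) (1 / 2)) : ‖cT t‖ ≤ 4 := norm_cT ht

lemma one_sub_le {w : ℂ} (h : ‖w‖ ≤ 4) : ‖1 - w‖ ≤ 5 := by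
  refine (norm_sub_le _ _).trans ?_
  rw [norm_one]
  linarith

/-- the weights near `t = 0` -/
theorem wok_T {t : ℂ} (ht : t ∈ ball (0 : ℂ) (1 / 2)) : WOk (16 * ‖t‖) (aT t) (bT t) (cT t) where
  na := Or.inl (norm_laT ht)
  nb := Or.inl (norm_lamT ht)
  nc := Or.inl (norm_lcT ht)
  a0 := (norm_aT ht).trans (by norm_num)
  b0 := (norm_bT ht).trans (by norm_num)
  c0 := (norm_cT ht).trans (by norm_num)
  a1 := one_sub_le ((norm_aT ht).trans (by norm_num))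
  b1 := one_sub_le (norm_bT ht)
  c1 := one_sub_le (norm_cT ht)

lemma WOk.mono {θ θ' : ℝ} {a b c : ℂ} (h : WOk θ a b c) (hθ : θ ≤ θ') : WOk θ' a b c :=
  ⟨nr_mono h.na hθ, nr_mono h.nb hθ, nr_mono h.nc hθ, h.a0, h.b0, h.c0, h.a1, h.b1, h.c1⟩

/-- the other frame -/
lemma WOk.rot {θ : ℝ} {a b c : ℂ} (h : WOk θ a b c) : WOk θ (1 - a) (1 - c) (1 - b) where
  na := by rw [sub_sub_cancel, mul_comm]; exact h.na
  nb := by rw [sub_sub_cancel, mul_comm]; exact h.nc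
  nc := by rw [sub_sub_cancel, mul_comm]; exact h.nb
  a0 := h.a1
  b0 := h.c1
  c0 := h.b1
  a1 := by rw [sub_sub_cancel]; exact h.a0
  b1 := by rw [sub_sub_cancel]; exact h.c0
  c1 := by rw [sub_sub_cancel]; exact h.b0

/-- **The weights at the rapidities `1 ≤ Im u`, `R ≤ B exp (Im u)`**, horizontal frame. -/
theorem wok_rap {B : ℝ} (hB : 0 < B) : ∃ R0 : ℝ, 0 < R0 ∧ ∀ R : ℝ, R0 ≤ R → ∀ u : ℂ, 1 ≤ u.im →
    R ≤ B * Real.exp u.im →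
    WOk (16 * B ^ (2 / 3 : ℝ) * R ^ (-(2 / 3) : ℝ)) (wa u) (wa (u + Real.pi / 2))
      (wa (u - Real.pi / 2)) := by
  have hlim : Tendsto (fun R : ℝ => B ^ (2 / 3 : ℝ) * R ^ (-(2 / 3) : ℝ)) atTop (𝓝 0) := by
    have h1 := tendsto_rpow_neg_atTop (y := 2 / 3) (by norm_num)
    have h2 := h1.const_mul (B ^ (2 / 3 : ℝ))
    rwa [mul_zero] at h2
  obtain ⟨R1, hR1⟩ := eventually_atTop.1 (hlim.eventually_lt_const (by norm_num : (0 : ℝ) < 1 / 2))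
  refine ⟨max R1 1, by positivity, fun R hR u hu h => ?_⟩
  have hR0 : 0 < R := lt_of_lt_of_le one_pos ((le_max_right _ _).trans hR)
  have h1 := norm_rap_le hB hR0 h
  have h2 := hR1 R ((le_max_left _ _).trans hR)
  obtain ⟨e1, e2, e3⟩ := wts_rap hu
  rw [e1, e2, e3]
  have h3 : Complex.exp (2 * Complex.I * u / 3) ∈ ball (0 : ℂ) (1 / 2) := by
    rw [mem_ball_zero_iff]
    exact lt_of_le_of_lt h1 h2
  have h4 : 16 * ‖Complex.exp (2 * Complex.I * u / 3)‖ ≤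
      16 * B ^ (2 / 3 : ℝ) * R ^ (-(2 / 3) : ℝ) := by
    calc 16 * ‖Complex.exp (2 * Complex.I * u / 3)‖
        ≤ 16 * (B ^ (2 / 3 : ℝ) * R ^ (-(2 / 3) : ℝ)) := by gcongr
      _ = _ := by ring
  exact (wok_T h3).mono h4

/-- **The weights at the rapidities `π - u`**, vertical frame. -/
theorem wok_rapV {B : ℝ} (hB : 0 < B) : ∃ R0 : ℝ, 0 < R0 ∧ ∀ R : ℝ, R0 ≤ R → ∀ u : ℂ, 1 ≤ u.im →
    R ≤ B * Real.exp u.im →
    WOk (16 * B ^ (2 / 3 : ℝ) * R ^ (-(2 / 3) : ℝ)) (wa (Real.pi - u)) (wa (Real.pi - u + Real.pi / 2))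
      (wa (Real.pi - u - Real.pi / 2)) := by
  obtain ⟨R0, h0, h⟩ := wok_rap hB
  refine ⟨R0, h0, fun R hR u hu hu' => ?_⟩
  have h1 := (h R hR u hu hu').rot
  obtain ⟨e1, e2, e3⟩ := wts_dir hu
  rw [← e1, ← e2, ← e3, sub_sub_cancel, sub_sub_cancel, sub_sub_cancel] at h1
  exact h1

end Pool.Agent.H32.W.Bd
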