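import Mathlib
import Pool.Agent.H30.W.SlitEx
import Pool.Agent.H95.W.PosK

set_option autoImplicit false
open Filter Topology Set

/-! # The row with a string in the windows of coarse data

`slit_C` : interior position `v`, far from the vertical wall lines; the row of the rotated window through the
tile `v` has a string and free height `r ≤ δ n`, and both ends of the row are at distance more than `δ n` from the
string. -/

namespace Pool.Agent.H32.W.Bd

open Pool.Agent.Q1.M4 (lat)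
open Pool.Agent.H54.W (CD Win HWin)
open Pool.Agent.H20.W (OmC)
open Pool.Agent.H30.W (Slit exists_slit)
open Pool.Agent.H95.W (pos_K)

variable {C : CD}

/-- the vertical strips -/
def Zv (C : CD) (η : ℝ) (n : ℤ) : Set (ℤ × ℤ) :=
  {v | ∃ Y : ℤ, 0 ≤ Y ∧ Y < C.H ∧ |(v.1 : ℝ) - n * C.A Y| ≤ η * n}

/-- **The row with a string.** -/
theorem slit_C (C : CD) {K : Set ℂ} (hK : K ⊆ OmC C) (hKc : IsCompact K) {η : ℝ} (hη : 0 < η) :
    ∃ δ : ℝ, 0 < δ ∧ ∃ n0 : ℕ, ∀ n : ℤ, (n0 : ℤ) ≤ n → 0 < n ∧ ∀ v : ℤ × ℤ,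
    lat v / ((n : ℝ) : ℂ) ∈ K → v ∉ Zv C η n → ∀ D : Win, D.h = n * C.H → D.w = n * C.W →
    D.a = C.wa n → ∀ kl kr : Bool, (∀ y, v.2 < y → y < D.h → D.cr y = kl) →
    (∀ y, 0 ≤ y → y < v.2 → D.cr y = kr) → ∀ e : ℕ, e ≤ 1 →
    (e = 0 → (((-v.2 - 1 + D.w) % 2 = 0 ↔ kl = true) ∧ ((-v.2 - 1 + D.w) % 2 = 1 ↔ kr = true))) →
    ∀ r : ℤ, 2 ≤ r → (r : ℝ) ≤ δ * n → ∃ S : Slit D.toH, S.xs = -v.2 - 1 ∧ S.y0 = v.1 - 1 ∧
      S.r = r ∧ S.e = e ∧ S.kl = kl ∧ S.kr = kr ∧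
      ∀ m : ℤ, (m : ℝ) ≤ δ * n → S.x1 + m < S.xs ∧ S.xs + m + 1 < S.x2 := by
  obtain ⟨δ0, hδ0, N, hpos⟩ := pos_K C hK hKc
  refine ⟨min (δ0 / 2) η, by positivity, N + ⌈4 / δ0⌉₊ + ⌈1 / η⌉₊ + 1, fun n hn => ?_⟩
  have hnN : (N : ℤ) ≤ n := by push_cast at hn; omega
  obtain ⟨hn0, hpos⟩ := hpos n hnN
  have hnr : (0 : ℝ) < n := by exact_mod_cast hn0
  have h4 : 4 ≤ δ0 * n := by
    have h1 : (4 / δ0 : ℝ) ≤ ⌈4 / δ0⌉₊ := Nat.le_ceil _
    have h2 : ((⌈4 / δ0⌉₊ : ℤ) : ℝ) ≤ n := by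
      exact_mod_cast (show (⌈4 / δ0⌉₊ : ℤ) ≤ n by push_cast at hn; omega)
    have h3 : 4 / δ0 ≤ n := h1.trans (by exact_mod_cast h2)
    rw [div_le_iff₀ hδ0] at h3
    linarith
  have h5 : 1 ≤ η * n := by
    have h1 : (1 / η : ℝ) ≤ ⌈1 / η⌉₊ := Nat.le_ceil _
    have h2 : ((⌈1 / η⌉₊ : ℤ) : ℝ) ≤ n := by
      exact_mod_cast (show (⌈1 / η⌉₊ : ℤ) ≤ n by push_cast at hn; omega)
    have h3 : 1 / η ≤ n := h1.trans (by exact_mod_cast h2)
    rw [div_le_iff₀ hη] at h3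
    linarith
  refine ⟨hn0, fun v hv hZ D hh hw ha kl kr hkl hkr e he hpar r hr2 hr => ?_⟩
  have hpos := hpos v hv
  have hd1 : min (δ0 / 2) η * n ≤ δ0 * n / 2 := by
    have := mul_le_mul_of_nonneg_right (min_le_left (δ0 / 2) η) hnr.le
    linarith
  have hd2 : min (δ0 / 2) η * n ≤ η * n := mul_le_mul_of_nonneg_right (min_le_right _ _) hnr.le
  have key : ∀ x y : ℤ, |x - v.1| ≤ r + 2 → |y - v.2| ≤ r + 2 →
      0 ≤ y ∧ y < n * C.H ∧ n * C.A (y / n) ≤ x ∧ x < n * C.W := by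
    intro x y hx hy
    have hx' : |((x - v.1 : ℤ) : ℝ)| ≤ ((r + 2 : ℤ) : ℝ) := by
      rw [← Int.cast_abs]; exact_mod_cast hx
    have hy' : |((y - v.2 : ℤ) : ℝ)| ≤ ((r + 2 : ℤ) : ℝ) := by
      rw [← Int.cast_abs]; exact_mod_cast hy
    push_cast at hx' hy'
    refine hpos x y ?_ ?_
    · push_cast
      linarith
    · push_cast
      linarith
  have key2 : ∀ (m : ℤ), (m : ℝ) ≤ min (δ0 / 2) η * n → ∀ y : ℤ, |y - v.2| ≤ m + 2 →
      0 ≤ y ∧ y < n * C.H ∧ n * C.A (y / n) ≤ v.1 := by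
    intro m hm y hy
    have hy' : |((y - v.2 : ℤ) : ℝ)| ≤ ((m + 2 : ℤ) : ℝ) := by
      rw [← Int.cast_abs]; exact_mod_cast hy
    push_cast at hy'
    obtain ⟨k1, k2, k3, -⟩ := hpos v.1 y (by simp only [sub_self, Int.cast_zero, abs_zero]; linarith)
      (by push_cast; linarith)
    exact ⟨k1, k2, k3⟩
  have hwa : ∀ y, C.wa n y ≤ n * C.A (y / n) ∧ n * C.A (y / n) - 1 ≤ C.wa n y := by
    intro y
    rcases C.wa_cases n y with ⟨-, e⟩ | ⟨-, e⟩ <;> omega
  -- the rows near `v`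
  have hnear : ∀ y, |y - v.2| ≤ r + 2 → 0 ≤ y ∧ y < n * C.H ∧ C.wa n y ≤ v.1 := by
    intro y hy
    obtain ⟨k1, k2, k3, -⟩ := key v.1 y (by rw [sub_self, abs_zero]; omega) hy
    exact ⟨k1, k2, (hwa y).1.trans k3⟩
  have abs2 : ∀ k : ℤ, -2 ≤ k → k ≤ 2 → |v.2 + k - v.2| ≤ r + 2 := by
    intro k h1 h2
    rw [add_sub_cancel_left, abs_le]
    omega
  have r0 := hnear (v.2 + 2) (abs2 2 (by norm_num) (by norm_num))
  have r1 := hnear (v.2 + (-2)) (abs2 (-2) (by norm_num) (by norm_num))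
  obtain ⟨S, s1, s2, s3, s4, s5, s6⟩ := exists_slit (D := D.toH) (xs := -v.2 - 1) (y0 := v.1 - 1)
    (r := r) (e := e) he
    (by simp only [Win.toH]; omega) (by simp only [Win.toH]; omega) hr2
    (by
      simp only [Win.toH]
      obtain ⟨-, -, -, k⟩ := key (v.1 + r) v.2 (by rw [add_sub_cancel_left, abs_le]; omega)
        (by rw [sub_self, abs_zero]; omega)
      omega)
    (by
      intro x hx1 hx2
      simp only [Win.toH] at hx1 hx2 ⊢
      rw [ha]
      set y : ℤ := -x - 1 with hy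
      have hY := C.row_of (n := n) hn0 (y := y) (by omega) (by omega)
      have hz : η * n < |(v.1 : ℝ) - n * C.A (y / n)| := by
        by_contra hc
        exact hZ ⟨y / n, hY.1, hY.2, not_lt.1 hc⟩
      have hb := hwa y
      rcases le_or_gt (0 : ℝ) ((v.1 : ℝ) - n * C.A (y / n)) with h | h
      · left
        rw [abs_of_nonneg h] at hz
        have h6 : (r : ℝ) < ((v.1 - n * C.A (y / n) : ℤ) : ℝ) := by push_cast; linarith
        have h7 : r < v.1 - n * C.A (y / n) := by exact_mod_cast h6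
        omega
      · right
        rw [abs_of_neg h] at hz
        have h6 : (1 : ℝ) < ((n * C.A (y / n) - v.1 : ℤ) : ℝ) := by push_cast; linarith
        have h7 : 1 < n * C.A (y / n) - v.1 := by exact_mod_cast h6
        omega)
    (by
      simp only [Win.toH]
      rw [ha, show -(-v.2 - 1 - 1) - 1 = v.2 + 1 by ring]
      have := hnear (v.2 + 1) (abs2 1 (by norm_num) (by norm_num))
      omega)
    (by
      simp only [Win.toH]
      rw [ha, show -(-v.2 - 1) - 1 = v.2 + 0 by ring]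
      have := hnear (v.2 + 0) (abs2 0 (by norm_num) (by norm_num))
      omega)
    (by
      simp only [Win.toH]
      rw [ha, show -(-v.2 - 1 + 1) - 1 = v.2 + (-1) by ring]
      have := hnear (v.2 + (-1)) (abs2 (-1) (by norm_num) (by norm_num))
      omega)
    (kl := kl) (kr := kr)
    (by
      intro x hx1 hx2
      simp only [Win.toH] at hx1 ⊢
      exact hkl _ (by omega) (by omega))
    (by
      intro x hx1 hx2
      simp only [Win.toH] at hx2 ⊢
      exact hkr _ (by omega) (by omega))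
    (by simpa only [Win.toH] using hpar)
  refine ⟨S, s1, s2, s3, s4, s5, s6, fun m hm => ?_⟩
  have ha' : ∀ y, D.a y = C.wa n y := fun y => by rw [ha]
  have C1 := S.comp
  have c0 := C1.y0
  have c2 := C1.yh
  have t1 := S.s1
  have t2 := S.s2
  simp only [Win.toH] at c0 c2
  rw [s1] at t1 t2 ⊢
  constructor
  · by_contra hc
    have hc' : -v.2 - 1 ≤ S.x1 + m := by omega
    have hk := key2 m hm (-S.x1) (by rw [abs_le]; omega)
    have hb := C1.bot (by simp only [Win.toH]; omega)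
    have hb' : S.y0 + 1 < D.a (-(S.x1 - 1) - 1) := hb
    rw [ha', s2, show -(S.x1 - 1) - 1 = -S.x1 by ring] at hb'
    have := hwa (-S.x1)
    omega
  · by_contra hc
    have hc' : S.x2 ≤ -v.2 - 1 + m + 1 := by omega
    have hk := key2 m hm (-S.x2 - 1) (by rw [abs_le]; omega)
    have hb := C1.top (by simp only [Win.toH]; omega)
    have hb' : S.y0 + 1 < D.a (-S.x2 - 1) := hb
    rw [ha', s2] at hb'
    have := hwa (-S.x2 - 1)
    omega

end Pool.Agent.H32.W.Bd
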