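import Mathlib
import Pool.Agent.H32.W.AbDir
import Pool.Agent.H93.W.VBridge

set_option autoImplicit false
open Finset Filter Topology Metric

/-! # The difference of the two worlds with the wall tile in the string

`orh O' r b` : outside of the rotated window with the colour `b` of the wall tile of the row `r`. `f2` : the sum
over the two colours of the wall tile of `fV`. `V2_diff` : the difference of the two line values of helper93 at the
rapidity `π - u` is, up to a phase, `f2` at `t = exp (2 i u / 3)`. -/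

namespace Pool.Agent.H32.W.Win

open Pool.Agent.H75.Perc hiding ph
open Pool.Agent.H75.TwoArm Pool.Agent.Q1
open Pool.Agent.H33.Q1 (lt tt lt_inj tt_lt)
open Pool.Agent.H40.R45 (aT bT aT_diff bT_diff kapT wa_aT)
open Pool.Agent.H64.Q1 (wa)
open Pool.Agent.Q1.M6b.ABW (cT)
open Pool.Agent.H54.W Pool.Agent.H21.W.Tau Pool.Agent.H21.W.TauPos Pool.Agent.H34.W
open Pool.Agent.H25.W (VJ aV rotF)
open Pool.Agent.H84.W (qs)
open Pool.Agent.H93.W (rcol orc V2 V2_inc io kap OutG OutZ qs_wal)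

variable {D : Win} {r s : ℤ}

lemma one_sub_w6 : 1 - w6 = w6⁻¹ := by
  have := one_sub_w6_inv
  linear_combination this

/-- the weight of the open wall tile, vertical frame -/
noncomputable def qw (D : Win) (r : ℤ) : ℂ := qs w6⁻¹ (1 - w6⁻¹) (lt (D.w, r))

/-- the same, horizontal frame -/
lemma qw_wal (D : Win) (r : ℤ) : qw D r = Pool.Agent.H46.Sp.Win.wal (-r - 1) D.w w6 := by
  unfold qw
  rw [qs_wal]
  unfold Pool.Agent.H46.Sp.Win.wal Pool.Agent.H54.W.Win.wal
  rw [one_sub_w6_inv, one_sub_w6]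
  by_cases h : (D.w + r) % 2 = 0
  · rw [if_pos h, if_neg (by omega)]
  · rw [if_neg h, if_pos (by omega)]

lemma norm_qw (D : Win) (r : ℤ) : ‖qw D r‖ = 1 ∧ ‖1 - qw D r‖ = 1 := by
  have h1 : ‖w6‖ = 1 := Pool.Agent.H40.R45.norm_w6
  have h2 : ‖w6⁻¹‖ = 1 := Pool.Agent.H40.R45.norm_w6_inv
  unfold qw qs
  rw [one_sub_w6_inv]
  split_ifs
  · exact ⟨h2, by rw [one_sub_w6_inv]; exact h1⟩
  · exact ⟨h1, by rw [one_sub_w6]; exact h2⟩

/-- outside of the rotated window with the colour `b` of the wall tile -/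
def orh (O' : HOut D.toH) (r : ℤ) (b : Bool) : HOut (rcol D r b).toH where
  Wo := O'.Wo
  c0 := O'.c0
  k0 := O'.k0
  g := O'.g
  far := O'.far
  hk := O'.hk
  hroot := O'.hroot
  hg := O'.hg
  hlow := O'.hlow

/-- **The sum over the two colours of the wall tile.** -/
noncomputable def f2 (D : Win) (O' : HOut D.toH) (ct' : ℤ × ℤ) (r s : ℤ) (t : ℂ) : ℂ :=
  (1 - qw D r) * fV (rcol D r false).toH (FI (orh O' r false) ct') w6 (-r - 1) s t +
    qw D r * fV (rcol D r true).toH (FI (orh O' r true) ct') w6 (-r - 1) s t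

theorem f2_diff (O' : HOut D.toH) (ct' : ℤ × ℤ) (r s : ℤ) :
    DifferentiableOn ℂ (f2 D O' ct' r s) (ball 0 (1 / 2)) :=
  ((fV_diff _ _ _ _).const_mul _).fun_add ((fV_diff _ _ _ _).const_mul _)

/-- the two windows of one world -/
noncomputable def V3 (D : Win) (O : Out D) (ct : ℤ × ℤ) (τ : ℤ → ℤ) (v : ℂ) (r s : ℤ) : ℂ :=
  (1 - qw D r) * (Win.XJ (orc O r false) τ).incW (opw (aVw (rcol D r false) τ v r s)) ct +
    qw D r * (Win.XJ (orc O r true) τ).incW (opw (aVw (rcol D r true) τ v r s)) ct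

/-- **The difference of the two worlds**, increments. -/
theorem V3_diff (O : Out D) (O' : HOut D.toH) (hW : O'.Wo = O.Wo.map rotL)
    (hc : O'.c0 = rotc O.c0) (ct : ℤ × ℤ) (r s : ℤ) {u : ℂ} (hu : 1 ≤ u.im) :
    V3 D O ct D.a (Real.pi - u) r (s + 1) - V3 D O ct (fun _ => D.w) (Real.pi - u) r s =
      w6 ^ (O.k0 - O'.k0) * f2 D O' (rotc ct) r s (Complex.exp (2 * Complex.I * u / 3)) := by
  have k := fun b : Bool => dV_inc (D := rcol D r b) (orc O r b) (orh O' r b) hW hc ct r s hu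
  have k1 : (Win.XJ (orc O r false) D.a).incW
        (opw (aVw (rcol D r false) D.a (Real.pi - u) r (s + 1))) ct -
      (Win.XJ (orc O r false) (fun _ => D.w)).incW
        (opw (aVw (rcol D r false) (fun _ => D.w) (Real.pi - u) r s)) ct =
      w6 ^ (O.k0 - O'.k0) * fV (rcol D r false).toH (FI (orh O' r false) (rotc ct)) w6 (-r - 1) s
        (Complex.exp (2 * Complex.I * u / 3)) := k false
  have k2 : (Win.XJ (orc O r true) D.a).incW
        (opw (aVw (rcol D r true) D.a (Real.pi - u) r (s + 1))) ct -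
      (Win.XJ (orc O r true) (fun _ => D.w)).incW
        (opw (aVw (rcol D r true) (fun _ => D.w) (Real.pi - u) r s)) ct =
      w6 ^ (O.k0 - O'.k0) * fV (rcol D r true).toH (FI (orh O' r true) (rotc ct)) w6 (-r - 1) s
        (Complex.exp (2 * Complex.I * u / 3)) := k true
  unfold V3 f2
  linear_combination (1 - qw D r) * k1 + qw D r * k2

/-- helper93's line value is the increment -/
theorem V2_V3 (O : Out D) {G Z : Finset (ℤ × ℤ)} {ct g : ℤ × ℤ} (h : OutG G O.c0 ct g)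
    (hG : D.GA ∪ O.Wo ⊆ G) (hZ : D.GA ⊆ Z) (h0 : OutZ Z O.c0) (ht : OutZ Z ct) (τ : ℤ → ℤ) (v : ℂ) :
    ph (kap h O.k0) * V2 D r s O.Wo (fun w => io w O.c0 ct) τ (wa v) (wa (v + Real.pi / 2))
      (wa (v - Real.pi / 2)) w6⁻¹ = V3 D O ct τ v r s := V2_inc O h hG hZ h0 ht _ _ _ _

/-- **The difference of the two worlds.** -/
theorem V2_diff (O : Out D) (O' : HOut D.toH) (hW : O'.Wo = O.Wo.map rotL)
    (hc : O'.c0 = rotc O.c0) {G Z : Finset (ℤ × ℤ)} {ct g : ℤ × ℤ} (h : OutG G O.c0 ct g)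
    (hG : D.GA ∪ O.Wo ⊆ G) (hZ : D.GA ⊆ Z) (h0 : OutZ Z O.c0) (ht : OutZ Z ct) (r s : ℤ) {u : ℂ}
    (hu : 1 ≤ u.im) :
    ‖V2 D r (s + 1) O.Wo (fun w => io w O.c0 ct) D.a (wa (Real.pi - u))
        (wa (Real.pi - u + Real.pi / 2)) (wa (Real.pi - u - Real.pi / 2)) w6⁻¹ -
      V2 D r s O.Wo (fun w => io w O.c0 ct) (fun _ => D.w) (wa (Real.pi - u))
        (wa (Real.pi - u + Real.pi / 2)) (wa (Real.pi - u - Real.pi / 2)) w6⁻¹‖ =
      ‖f2 D O' (rotc ct) r s (Complex.exp (2 * Complex.I * u / 3))‖ := by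
  have k := V3_diff O O' hW hc ct r s hu
  rw [← V2_V3 O h hG hZ h0 ht, ← V2_V3 O h hG hZ h0 ht, ← mul_sub] at k
  have k2 := congrArg norm k
  rw [norm_mul, norm_mul, show ‖ph (kap h O.k0)‖ = 1 by
    unfold ph; rw [norm_zpow, Pool.Agent.H40.R45.norm_w6, one_zpow], one_mul, norm_zpow, Pool.Agent.H40.R45.norm_w6, one_zpow,
    one_mul] at k2
  exact k2

end Pool.Agent.H32.W.Win
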